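import Pool.Agent.Q197.IU.Chain2

/-!
# One block
-/

set_option autoImplicit false
set_option linter.unusedSectionVars false

namespace Pool.Agent.Q197.IU

open Finset Filter MeasureTheory ProbabilityTheory Pool.Agent.Q197.FM Pool.Agent.Q197.CI Pool.Agent.Q197.BH
  Pool.Agent.Q197.IT Pool.Agent.Q120.ET Pool.Agent.Q120.MF
open scoped Topology

variable {Ω : Type*} [MeasurableSpace Ω] {μ : Measure Ω} [IsProbabilityMeasure μ] {A : Ω → Set ℕ}

/-- The second chain. -/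
def D2 (N z : ℕ) (τ σ ε : ℝ) (b e H : ℕ) (Used T : Finset ℕ) (S : Set ℕ) : Prop :=
  DC N z τ σ ε (fun _ _ _ => False) (b + 1) Used e (e + H) T (fun t => H - 1 - t) S

/-- Both chains. -/
def D1 (N z : ℕ) (τ σ ε : ℝ) (a b c e H : ℕ) (S : Set ℕ) : Prop :=
  DC N z τ σ ε (D2 N z τ σ ε b e H) (a + 1) ∅ c (c + H) (range H) id S

theorem two_dc (hA : IndepElems μ A) {N z : ℕ} (hz : 3 ≤ z) {τ σ ε : ℝ} (hτ : 0 < τ) (hτ1 : τ ≤ 1) (hε : 0 < ε)
    (hε1 : ε < 1) (hτN : ∀ a : ℕ, z ≤ a → a < N → τ ≤ μ.real {ω | a ∈ A ω} ∧ μ.real {ω | a ∈ A ω} ≤ σ)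
    (a b c e H : ℕ) (hH : 1 ≤ H) :
    μ.real {ω | D1 N z τ σ ε a b c e H (A ω)} ≤
      ((N : ℝ) + 1) ^ (2 * (a + b + 2)) *
        ((a + b + 2 : ℕ) * (2 * Real.exp (-(ε ^ 2 / 4 * (H * ((1 - ε) * τ) ^ (a + b + 2)))))) := by
  obtain ⟨q, hq⟩ : ∃ q : ℝ, q = (1 - ε) * τ := ⟨_, rfl⟩
  have hq0 : 0 < q := by rw [hq]; exact mul_pos (by linarith) hτ
  have hq1 : q ≤ 1 := by rw [hq]; nlinarith
  obtain ⟨m, hm⟩ : ∃ m : ℝ, m = H * q ^ (a + b + 2) := ⟨_, rfl⟩
  have hH0 : (0 : ℝ) < H := by exact_mod_cast hH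
  have hm0 : 0 < m := by rw [hm]; positivity
  have hN0 : (0 : ℝ) ≤ N := Nat.cast_nonneg N
  obtain ⟨E, hE⟩ : ∃ E : ℝ, E = 2 * Real.exp (-(ε ^ 2 / 4 * m)) := ⟨_, rfl⟩
  have hE0 : 0 < E := by rw [hE]; positivity
  have hK0l : ∀ Used T : Finset ℕ, Loc (Ico 3 N \ Used) ((fun _ _ _ => False : Finset ℕ → Finset ℕ → Set ℕ → Prop) Used T) :=
    fun Used T S S' _ => rfl
  have hK1l : ∀ Used T, Loc (Ico 3 N \ Used) (D2 N z τ σ ε b e H Used T) :=
    fun Used T => dc_loc hz hK0l (b + 1) Used e (e + H) T _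
  obtain ⟨κ, hκ⟩ : ∃ κ : ℝ, κ = ((N : ℝ) + 1) ^ (2 * (b + 1)) * (0 + ((b + 1 : ℕ) : ℝ) * E) := ⟨_, rfl⟩
  have hκ0 : 0 ≤ κ := by rw [hκ]; positivity
  obtain ⟨m1, hm1⟩ : ∃ m1 : ℝ, m1 = H * q ^ (a + 1) := ⟨_, rfl⟩
  have hm10 : 0 < m1 := by rw [hm1]; positivity
  have hmm : m = m1 * q ^ (b + 1) := by
    rw [hm, hm1, mul_assoc, ← pow_add]
    congr 2
    omega
  have hle1 : q ^ (b + 1) ≤ 1 := pow_le_one₀ hq0.le hq1
  have hmle : m ≤ m1 := by
    rw [hmm]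
    nlinarith
  have hK1 : ∀ Used T : Finset ℕ, T ⊆ range H → m1 ≤ T.card → μ.real {ω | D2 N z τ σ ε b e H Used T (A ω)} ≤ κ := by
    intro Used T hTH hT
    rw [hκ, hE]
    refine dc_prob hA hz hτ hτ1 hε hε1.le hτN hK0l hm0 le_rfl (fun U T' _ => ?_) (b + 1) Used e (e + H) T _ ?_ ?_
    · simp
    · intro t ht t' ht' he
      have h1 := mem_range.1 (hTH ht)
      have h2 := mem_range.1 (hTH ht')
      simp only at he
      omega
    · rw [hmm, ← hq]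
      exact mul_le_mul_of_nonneg_right hT (by positivity)
  obtain ⟨K', hK'⟩ : ∃ K' : Finset ℕ → Finset ℕ → Set ℕ → Prop,
      K' = fun Used T S => T ⊆ range H ∧ D2 N z τ σ ε b e H Used T S := ⟨_, rfl⟩
  have hK'l : ∀ Used T, Loc (Ico 3 N \ Used) (K' Used T) := by
    intro Used T S S' hS
    rw [hK']
    show (T ⊆ range H ∧ D2 N z τ σ ε b e H Used T S) = (T ⊆ range H ∧ D2 N z τ σ ε b e H Used T S')
    rw [hK1l Used T S S' hS]
  have hK'1 : ∀ Used T : Finset ℕ, m1 ≤ T.card → μ.real {ω | K' Used T (A ω)} ≤ κ := by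
    intro Used T hT
    rw [hK']
    by_cases h : T ⊆ range H
    · simp only [h, true_and]
      exact hK1 Used T h hT
    · simp only [h, false_and]
      simpa using hκ0
  have h1 := dc_prob hA hz hτ hτ1 hε hε1.le hτN hK'l hm10 hκ0 hK'1 (a + 1) ∅ c (c + H) (range H) id (Set.injOn_id _)
    (by rw [card_range, hm1, hq])
  have hsub : ∀ k : ℕ, ∀ (Used : Finset ℕ) (lo hi : ℕ) (T : Finset ℕ) (ρ : ℕ → ℕ) (S : Set ℕ), T ⊆ range H →
      DC N z τ σ ε (D2 N z τ σ ε b e H) k Used lo hi T ρ S → DC N z τ σ ε K' k Used lo hi T ρ S := by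
    intro k
    induction k with
    | zero =>
      intro Used lo hi T ρ S hT h
      unfold DC at h ⊢
      rw [hK']
      exact ⟨hT, h⟩
    | succ k ih =>
      intro Used lo hi T ρ S hT h
      unfold DC at h ⊢
      obtain ⟨h2, h3⟩ := h
      refine ⟨h2, h3.imp id ?_⟩
      rintro ⟨v, hv, h3⟩
      refine ⟨v, hv, ih _ _ _ _ _ _ (fun t ht => ?_) h3⟩
      rw [mem_hit] at ht
      exact hT ht.1
  refine (measureReal_mono (fun ω hω => hsub (a + 1) ∅ c (c + H) (range H) id (A ω) (Subset.refl _) hω)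
    (measure_ne_top _ _)).trans (h1.trans ?_)
  rw [← hq, ← hm, ← hE, hκ, zero_add]
  have h2 : 2 * Real.exp (-(ε ^ 2 / 4 * m1)) ≤ E := by
    rw [hE]
    refine mul_le_mul_of_nonneg_left (Real.exp_le_exp.2 ?_) (by norm_num)
    have : 0 < ε ^ 2 / 4 := by positivity
    nlinarith
  have h3 : ((N : ℝ) + 1) ^ (2 * (a + b + 2)) = ((N : ℝ) + 1) ^ (2 * (a + 1)) * ((N : ℝ) + 1) ^ (2 * (b + 1)) := by
    rw [← pow_add]
    congr 1
    ring
  rw [h3]
  have h4 : (1 : ℝ) ≤ ((N : ℝ) + 1) ^ (2 * (b + 1)) := one_le_pow₀ (by linarith)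
  have h5 : ((a + b + 2 : ℕ) : ℝ) = ((b + 1 : ℕ) : ℝ) + ((a + 1 : ℕ) : ℝ) := by
    push_cast
    ring
  rw [h5, mul_assoc]
  refine mul_le_mul_of_nonneg_left ?_ (by positivity)
  have h6 : ((a + 1 : ℕ) : ℝ) * (2 * Real.exp (-(ε ^ 2 / 4 * m1))) ≤ ((a + 1 : ℕ) : ℝ) * E :=
    mul_le_mul_of_nonneg_left h2 (Nat.cast_nonneg _)
  have h7 : 0 ≤ ((a + 1 : ℕ) : ℝ) * E := by positivity
  have h8 : ((a + 1 : ℕ) : ℝ) * E ≤ ((N : ℝ) + 1) ^ (2 * (b + 1)) * (((a + 1 : ℕ) : ℝ) * E) := by nlinarith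
  have h9 : ((N : ℝ) + 1) ^ (2 * (b + 1)) * ((((b + 1 : ℕ) : ℝ) + ((a + 1 : ℕ) : ℝ)) * E) =
      ((N : ℝ) + 1) ^ (2 * (b + 1)) * (((b + 1 : ℕ) : ℝ) * E) + ((N : ℝ) + 1) ^ (2 * (b + 1)) * (((a + 1 : ℕ) : ℝ) * E) := by
    ring
  rw [h9]
  linarith

open Classical in
/-- The solutions in a block. -/
noncomputable def Fc (S : Set ℕ) (a b n c H : ℕ) : Finset ℕ :=
  (range H).filter (fun t => IsPr a S (c + t) ∧ IsPr b S (n - (c + t)))

/-- **The number of the solutions in one block.** -/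
theorem block_count {S : Set ℕ} {N z n a b c e H : ℕ} (hz : 3 ≤ z) {τ σ ε : ℝ} (hτ : 0 ≤ τ) (hσ : 0 ≤ σ) (hε : 0 ≤ ε)
    (hε1 : ε ≤ 1) (hn : c + H + e = n + 1) (hce : c + H ≤ e) (hH : 1 ≤ H) (hN : e + H ≤ N) (hcc : fs S (c + H) ≤ c)
    (hee : fs S (e + H) ≤ e) (hsep : ∀ l, 1 ≤ l → l ≤ b → c + H ≤ (fs S)^[l] e ∨ (fs S)^[l] (e + H) ≤ c)
    (hzc : ∀ j < a + 1, z ≤ (fs S)^[j] c) (hze : ∀ j < b + 1, z ≤ (fs S)^[j] e) (hnot : ¬ D1 N z τ σ ε a b c e H S) :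
    ((1 - ε) * τ) ^ (a + b + 2) * H ≤ (Fc S a b n c H).card ∧
      ((Fc S a b n c H).card : ℝ) ≤ ((1 + ε) * σ) ^ (a + b + 2) * H := by
  classical
  have hc3 : z ≤ c := hzc 0 (by omega)
  obtain ⟨g1, g2, g3⟩ := dc_or hz hτ hσ hε hε1 (K := D2 N z τ σ ε b e H) (a + 1) ∅ c (c + H) (range H) id (by omega) (by omega)
    (by omega) hzc (fun j hj => by
      rw [empty_union, disjoint_left]
      intro w hw hw2
      rw [mem_Ico] at hw
      rw [mem_bl] at hw2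
      obtain ⟨i, hi, hi2, _⟩ := hw2
      have h4 := it_sep (S := S) (u := c) (v := c + H) (by omega) hcc hi
      omega) (fun t ht => by
      rw [mem_range] at ht
      simp only [id]
      omega) hnot
  unfold D2 at g3
  rw [empty_union] at g3
  obtain ⟨k1, k2, _⟩ := dc_or hz hτ hσ hε hε1 (K := fun _ _ _ => False) (b + 1) (bl S c (c + H) (a + 1)) e (e + H)
    (sv S (a + 1) c (range H) id) (fun t => H - 1 - t) (by omega) (by omega) hN hze (fun j hj => by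
      rw [disjoint_left]
      intro w hw hw2
      rw [mem_Ico] at hw
      rw [mem_union, mem_bl, mem_bl] at hw2
      rcases hw2 with ⟨i, hi, hi2, hi3⟩ | ⟨i, hi, hi2, _⟩
      · rcases Nat.lt_or_ge i j with h4 | h4
        · obtain ⟨l, hl⟩ : ∃ l, j = i + l := ⟨j - i, by omega⟩
          have hl1 : 1 ≤ l := by omega
          rcases hsep l hl1 (by omega) with h5 | h5
          · have h6 := it_mono S i h5
            rw [← Function.iterate_add_apply, ← hl] at h6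
            omega
          · have h6 := it_mono S i h5
            rw [← Function.iterate_add_apply, ← hl] at h6
            omega
        · have h5 := it_anti (S := S) (x := c + H) (by omega) h4
          have h6 := it_mono S j hce
          omega
      · have h4 := it_sep (S := S) (u := e) (v := e + H) (by omega) hee hi
        omega) (fun t ht => by
      rw [mem_sv, mem_range] at ht
      omega) g3
  have hF : Fc S a b n c H = sv S (b + 1) e (sv S (a + 1) c (range H) id) (fun t => H - 1 - t) := by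
    ext t
    unfold Fc
    rw [mem_filter, mem_sv, mem_sv, mem_range]
    have e1 : ∀ t < H, n - (c + t) = e + (H - 1 - t) := fun t ht => by omega
    constructor
    · rintro ⟨h1, h2, h3⟩
      rw [e1 t h1] at h3
      rw [isPr_iff_it] at h2 h3
      exact ⟨⟨h1, fun j hj => (h2 j hj).2⟩, fun j hj => (h3 j hj).2⟩
    · rintro ⟨⟨h1, h2⟩, h3⟩
      refine ⟨h1, ?_, ?_⟩
      · rw [isPr_iff_it]
        intro j hj
        exact ⟨(hz.trans (hzc j hj)).trans (it_mono S j (by omega)), h2 j hj⟩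
      · rw [e1 t h1, isPr_iff_it]
        intro j hj
        exact ⟨(hz.trans (hze j hj)).trans (it_mono S j (by omega)), h3 j hj⟩
  rw [hF]
  rw [card_range] at g1 g2
  have hq0 : 0 ≤ (1 - ε) * τ := mul_nonneg (by linarith) hτ
  have hs0 : 0 ≤ (1 + ε) * σ := mul_nonneg (by linarith) hσ
  constructor
  · refine le_trans ?_ k1
    calc ((1 - ε) * τ) ^ (a + b + 2) * (H : ℝ) = ((1 - ε) * τ) ^ (b + 1) * (((1 - ε) * τ) ^ (a + 1) * H) := by
          rw [← mul_assoc, ← pow_add]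
          congr 2
          omega
      _ ≤ _ := mul_le_mul_of_nonneg_left g1 (pow_nonneg hq0 _)
  · refine k2.trans ?_
    calc ((1 + ε) * σ) ^ (b + 1) * ((sv S (a + 1) c (range H) id).card : ℝ) ≤
        ((1 + ε) * σ) ^ (b + 1) * (((1 + ε) * σ) ^ (a + 1) * H) := mul_le_mul_of_nonneg_left g2 (pow_nonneg hs0 _)
      _ = ((1 + ε) * σ) ^ (a + b + 2) * (H : ℝ) := by
          rw [← mul_assoc, ← pow_add]
          congr 2
          omega

end Pool.Agent.Q197.IU
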