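import Pool.Agent.Q197.IT.Upper

/-!
# Chains of filters with two sided control
-/

set_option autoImplicit false
set_option linter.unusedSectionVars false

namespace Pool.Agent.Q197.IU

open Finset Filter MeasureTheory ProbabilityTheory Pool.Agent.Q197.FM Pool.Agent.Q197.CI Pool.Agent.Q197.BH
  Pool.Agent.Q197.IT Pool.Agent.Q120.ET Pool.Agent.Q120.MF
open scoped Topology

variable {Ω : Type*} [MeasurableSpace Ω] {μ : Measure Ω} [IsProbabilityMeasure μ] {A : Ω → Set ℕ}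

/-- The number of the survivors is not as expected. -/
def Dv (τ σ ε : ℝ) (T U : Finset ℕ) : Prop := (U.card : ℝ) < (1 - ε) * τ * T.card ∨ (1 + ε) * σ * T.card < U.card

/-- `k` filters in a row, with unknown blocks: a deviation somewhere, or the property `K` at the end. -/
def DC (N z : ℕ) (τ σ ε : ℝ) (K : Finset ℕ → Finset ℕ → Set ℕ → Prop) :
    ℕ → Finset ℕ → ℕ → ℕ → Finset ℕ → (ℕ → ℕ) → Set ℕ → Prop
  | 0, Used, _, _, T, _, S => K Used T S
  | k + 1, Used, lo, hi, T, ρ, S => (z ≤ lo ∧ hi ≤ N ∧ Disjoint (Ico lo hi) Used ∧ ∀ t ∈ T, lo + ρ t < hi) ∧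
      (Dv τ σ ε T (hit S lo T ρ) ∨
        ∃ v ∈ (range (N + 1) ×ˢ range (N + 1)), DC N z τ σ ε K k (Used ∪ Ico lo hi) v.1 v.2 (hit S lo T ρ) (nx S lo hi ρ) S)

theorem dc_loc {N z : ℕ} (hz : 3 ≤ z) {τ σ ε : ℝ} {K : Finset ℕ → Finset ℕ → Set ℕ → Prop}
    (hK : ∀ Used T, Loc (Ico 3 N \ Used) (K Used T)) (k : ℕ) :
    ∀ (Used : Finset ℕ) (lo hi : ℕ) (T : Finset ℕ) (ρ : ℕ → ℕ), Loc (Ico 3 N \ Used) (DC N z τ σ ε K k Used lo hi T ρ) := by
  induction k with
  | zero =>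
    intro Used lo hi T ρ
    exact hK Used T
  | succ k ih =>
    intro Used lo hi T ρ S S' hS
    unfold DC
    by_cases hc : z ≤ lo ∧ hi ≤ N ∧ Disjoint (Ico lo hi) Used ∧ ∀ t ∈ T, lo + ρ t < hi
    · obtain ⟨h1, h2, h3, h4⟩ := hc
      have hsub : Ico lo hi ⊆ Ico 3 N \ Used := by
        intro a ha
        rw [Finset.mem_sdiff]
        refine ⟨?_, fun h => (disjoint_left.1 h3) ha h⟩
        rw [mem_Ico] at ha ⊢
        omega
      have h5 : ∀ a ∈ Ico lo hi, (a ∈ S ↔ a ∈ S') := fun a ha => hS a (hsub ha)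
      have e1 : hit S lo T ρ = hit S' lo T ρ := hit_loc lo hi T ρ h4 S S' h5
      have e2 : nx S lo hi ρ = nx S' lo hi ρ := nx_loc lo hi ρ S S' h5
      rw [e1, e2]
      refine propext (and_congr_right (fun _ => or_congr Iff.rfl (exists_congr (fun v => and_congr_right (fun _ => ?_)))))
      rw [ih (Used ∪ Ico lo hi) v.1 v.2 (hit S' lo T ρ) (nx S' lo hi ρ) S S' (fun a ha => hS a ?_)]
      rw [Finset.mem_sdiff] at ha ⊢
      exact ⟨ha.1, fun h => ha.2 (mem_union_left _ h)⟩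
    · simp only [hc, false_and]

/-- One filter, two sided. -/
theorem filter_dv (hA : IndepElems μ A) {N z : ℕ} {τ σ ε : ℝ} (hτ : 0 < τ) (hε : 0 < ε) (hε1 : ε ≤ 1)
    (hτN : ∀ a : ℕ, z ≤ a → a < N → τ ≤ μ.real {ω | a ∈ A ω} ∧ μ.real {ω | a ∈ A ω} ≤ σ) {lo hi : ℕ} (hlo : z ≤ lo)
    (hhi : hi ≤ N) {T : Finset ℕ} {ρ : ℕ → ℕ} (hρ : Set.InjOn ρ T) (h : ∀ t ∈ T, lo + ρ t < hi) (hT : T.Nonempty) :
    μ.real {ω | Dv τ σ ε T (hit (A ω) lo T ρ)} ≤ 2 * Real.exp (-(ε ^ 2 / 4 * (T.card * τ))) := by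
  obtain ⟨W, hW⟩ : ∃ W : ℕ → Finset ℕ, W = fun t => {lo + ρ t} := ⟨_, rfl⟩
  have hpw : ∀ t ∈ T, τ ≤ pw μ A (W t) ∧ pw μ A (W t) ≤ σ := by
    intro t ht
    rw [hW]
    unfold pw
    rw [prod_singleton]
    exact hτN _ (by omega) (by have := h t ht; omega)
  have hdis : ∀ i ∈ T, ∀ j ∈ T, i ≠ j → Disjoint (W i) (W j) := by
    intro i hi j hj hij
    rw [hW]
    show Disjoint ({lo + ρ i} : Finset ℕ) {lo + ρ j}
    rw [disjoint_singleton]
    exact fun he => hij (hρ hi hj (by omega))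
  obtain ⟨M, hM⟩ : ∃ M : ℝ, M = ∑ i ∈ T, pw μ A (W i) := ⟨_, rfl⟩
  have hMτ : (T.card : ℝ) * τ ≤ M := by
    rw [hM, ← nsmul_eq_mul]
    exact card_nsmul_le_sum _ _ _ (fun t ht => (hpw t ht).1)
  have hMσ : M ≤ (T.card : ℝ) * σ := by
    rw [hM, ← nsmul_eq_mul]
    exact sum_le_card_nsmul _ _ _ (fun t ht => (hpw t ht).2)
  have hT0 : (0 : ℝ) < T.card := by exact_mod_cast hT.card_pos
  have hM0 : 0 < M := lt_of_lt_of_le (mul_pos hT0 hτ) hMτ
  have h1 := lower_tail hA T W hdis (t := ε * M) (M := M) hM0 (by positivity) (by nlinarith) (le_of_eq hM.symm)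
  have h1' := upper_tail hA T W hdis (t := ε * M) (M := M) hM0 (by positivity) (by nlinarith) (le_of_eq hM.symm)
  rw [← hM] at h1 h1'
  have hsc : ∀ ω, sc W T (A ω) = ((hit (A ω) lo T ρ).card : ℝ) := by
    intro ω
    unfold sc hit
    rw [hW]
    congr 2
    ext t
    simp
  have h2 : {ω | Dv τ σ ε T (hit (A ω) lo T ρ)} ⊆ {ω | sc W T (A ω) ≤ M - ε * M} ∪ {ω | M + ε * M ≤ sc W T (A ω)} := by
    intro ω hω
    rw [Set.mem_ofPred_eq] at hω
    rcases hω with h3 | h3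
    · refine Or.inl ?_
      rw [Set.mem_ofPred_eq, hsc]
      nlinarith
    · refine Or.inr ?_
      rw [Set.mem_ofPred_eq, hsc]
      nlinarith
  have h4 : (ε * M) ^ 2 / (4 * M) = ε ^ 2 / 4 * M := by
    field_simp
  rw [h4] at h1 h1'
  have h5 : Real.exp (-(ε ^ 2 / 4 * M)) ≤ Real.exp (-(ε ^ 2 / 4 * (T.card * τ))) := by
    refine Real.exp_le_exp.2 ?_
    have : 0 < ε ^ 2 / 4 := by positivity
    nlinarith
  refine (measureReal_mono h2 (measure_ne_top _ _)).trans ((measureReal_union_le _ _).trans ?_)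
  linarith

/-- **The chain.** -/
theorem dc_prob (hA : IndepElems μ A) {N z : ℕ} (hz : 3 ≤ z) {τ σ ε : ℝ} (hτ : 0 < τ) (hτ1 : τ ≤ 1) (hε : 0 < ε)
    (hε1 : ε ≤ 1) (hτN : ∀ a : ℕ, z ≤ a → a < N → τ ≤ μ.real {ω | a ∈ A ω} ∧ μ.real {ω | a ∈ A ω} ≤ σ)
    {K : Finset ℕ → Finset ℕ → Set ℕ → Prop}
    (hKl : ∀ Used T, Loc (Ico 3 N \ Used) (K Used T)) {m κ : ℝ} (hm : 0 < m) (hκ : 0 ≤ κ)
    (hK : ∀ Used T : Finset ℕ, m ≤ T.card → μ.real {ω | K Used T (A ω)} ≤ κ) (k : ℕ) :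
    ∀ (Used : Finset ℕ) (lo hi : ℕ) (T : Finset ℕ) (ρ : ℕ → ℕ), Set.InjOn ρ T → m ≤ T.card * ((1 - ε) * τ) ^ k →
      μ.real {ω | DC N z τ σ ε K k Used lo hi T ρ (A ω)} ≤
        ((N : ℝ) + 1) ^ (2 * k) * (κ + k * (2 * Real.exp (-(ε ^ 2 / 4 * m)))) := by
  induction k with
  | zero =>
    intro Used lo hi T ρ _ hT
    rw [pow_zero, mul_one] at hT
    have := hK Used T hT
    unfold DC
    simpa using this
  | succ k ih =>
    intro Used lo hi T ρ hρ hT
    have hN0 : (0 : ℝ) ≤ N := Nat.cast_nonneg N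
    have hq0 : 0 ≤ (1 - ε) * τ := mul_nonneg (by linarith) hτ.le
    have hq1 : (1 - ε) * τ ≤ 1 := by nlinarith
    have hRHS : 0 ≤ ((N : ℝ) + 1) ^ (2 * (k + 1)) * (κ + ((k + 1 : ℕ) : ℝ) * (2 * Real.exp (-(ε ^ 2 / 4 * m)))) := by positivity
    by_cases hc : z ≤ lo ∧ hi ≤ N ∧ Disjoint (Ico lo hi) Used ∧ ∀ t ∈ T, lo + ρ t < hi
    · obtain ⟨h1, h2, h3, h4⟩ := hc
      have hT0 : T.Nonempty := by
        rw [nonempty_iff_ne_empty]
        rintro rfl
        rw [card_empty, Nat.cast_zero, zero_mul] at hT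
        linarith
      have htail := filter_dv hA hτ hε hε1 hτN h1 h2 hρ h4 hT0
      have hTτ : m ≤ T.card * τ := by
        refine hT.trans ?_
        have h5 : ((1 - ε) * τ) ^ (k + 1) ≤ τ := by
          rw [pow_succ]
          have h6 : ((1 - ε) * τ) ^ k ≤ 1 := pow_le_one₀ hq0 hq1
          have h7 : (1 - ε) * τ ≤ τ := by nlinarith
          calc ((1 - ε) * τ) ^ k * ((1 - ε) * τ) ≤ 1 * τ := mul_le_mul h6 h7 hq0 zero_le_one
            _ = τ := one_mul _
        exact mul_le_mul_of_nonneg_left h5 (Nat.cast_nonneg _)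
      obtain ⟨b, hb⟩ : ∃ b : ℝ, b = ((N : ℝ) + 1) ^ (2 * k) * (κ + k * (2 * Real.exp (-(ε ^ 2 / 4 * m)))) := ⟨_, rfl⟩
      have hb0 : 0 ≤ b := by rw [hb]; positivity
      have hsub : {ω | DC N z τ σ ε K (k + 1) Used lo hi T ρ (A ω)} ⊆ {ω | Dv τ σ ε T (hit (A ω) lo T ρ)} ∪
          ⋃ v ∈ range (N + 1) ×ˢ range (N + 1), {ω | (¬ Dv τ σ ε T (hit (A ω ∩ (Ico lo hi : Finset ℕ)) lo T ρ)) ∧
            DC N z τ σ ε K k (Used ∪ Ico lo hi) v.1 v.2 (hit (A ω ∩ (Ico lo hi : Finset ℕ)) lo T ρ)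
              (nx (A ω ∩ (Ico lo hi : Finset ℕ)) lo hi ρ) (A ω)} := by
        intro ω hω
        rw [Set.mem_ofPred_eq] at hω
        unfold DC at hω
        obtain ⟨_, hω⟩ := hω
        have e0 : ∀ a ∈ Ico lo hi, (a ∈ A ω ↔ a ∈ A ω ∩ (Ico lo hi : Finset ℕ)) :=
          fun a ha => ⟨fun h => ⟨h, ha⟩, fun h => h.1⟩
        have e1 : hit (A ω) lo T ρ = hit (A ω ∩ (Ico lo hi : Finset ℕ)) lo T ρ := hit_loc lo hi T ρ h4 _ _ e0
        have e2 : nx (A ω) lo hi ρ = nx (A ω ∩ (Ico lo hi : Finset ℕ)) lo hi ρ := nx_loc lo hi ρ _ _ e0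
        by_cases h5 : Dv τ σ ε T (hit (A ω) lo T ρ)
        · exact Or.inl h5
        · refine Or.inr ?_
          obtain ⟨v, hv, hω⟩ := hω.resolve_left h5
          rw [e1, e2] at hω
          simp only [Set.mem_iUnion, exists_prop]
          rw [e1] at h5
          exact ⟨v, hv, h5, hω⟩
      have hI : Disjoint (Ico lo hi) (Ico 3 N \ (Used ∪ Ico lo hi)) := by
        rw [disjoint_left]
        intro a ha h
        rw [Finset.mem_sdiff] at h
        exact h.2 (mem_union_right _ ha)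
      have hv : ∀ v : ℕ × ℕ, μ.real {ω | (¬ Dv τ σ ε T (hit (A ω ∩ (Ico lo hi : Finset ℕ)) lo T ρ)) ∧
            DC N z τ σ ε K k (Used ∪ Ico lo hi) v.1 v.2 (hit (A ω ∩ (Ico lo hi : Finset ℕ)) lo T ρ)
              (nx (A ω ∩ (Ico lo hi : Finset ℕ)) lo hi ρ) (A ω)} ≤ b := by
        intro v
        refine cond_le hA hI (fun S => ¬ Dv τ σ ε T (hit S lo T ρ))
          (fun U S => DC N z τ σ ε K k (Used ∪ Ico lo hi) v.1 v.2 (hit U lo T ρ) (nx U lo hi ρ) S) (fun U _ => ?_) hb0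
          (fun U _ hU => ?_)
        · exact dc_loc hz hKl k _ _ _ _ _
        · rw [hb]
          refine ih _ _ _ _ _ (nx_inj hρ h4) (hT.trans ?_)
          rw [pow_succ]
          have h6 : 0 ≤ ((1 - ε) * τ) ^ k := pow_nonneg hq0 k
          have h7 : (1 - ε) * τ * T.card ≤ ((hit (U : Set ℕ) lo T ρ).card : ℝ) := by
            by_contra hcon
            exact hU (Or.inl (not_le.1 hcon))
          calc (T.card : ℝ) * (((1 - ε) * τ) ^ k * ((1 - ε) * τ)) = ((1 - ε) * τ * T.card) * ((1 - ε) * τ) ^ k := by ring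
            _ ≤ _ := mul_le_mul_of_nonneg_right h7 h6
      have hsum : μ.real (⋃ v ∈ range (N + 1) ×ˢ range (N + 1), {ω | (¬ Dv τ σ ε T (hit (A ω ∩ (Ico lo hi : Finset ℕ)) lo T ρ)) ∧
            DC N z τ σ ε K k (Used ∪ Ico lo hi) v.1 v.2 (hit (A ω ∩ (Ico lo hi : Finset ℕ)) lo T ρ)
              (nx (A ω ∩ (Ico lo hi : Finset ℕ)) lo hi ρ) (A ω)}) ≤ ((N : ℝ) + 1) ^ 2 * b := by
        refine (measureReal_biUnion_finset_le _ _).trans ((sum_le_sum (fun v _ => hv v)).trans (le_of_eq ?_))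
        rw [sum_const, card_product, card_range, nsmul_eq_mul]
        push_cast
        ring
      obtain ⟨E, hE⟩ : ∃ E : ℝ, E = 2 * Real.exp (-(ε ^ 2 / 4 * m)) := ⟨_, rfl⟩
      have hE0 : 0 < E := by rw [hE]; positivity
      have hexp : 2 * Real.exp (-(ε ^ 2 / 4 * (T.card * τ))) ≤ E := by
        rw [hE]
        refine mul_le_mul_of_nonneg_left (Real.exp_le_exp.2 ?_) (by norm_num)
        have : 0 < ε ^ 2 / 4 := by positivity
        nlinarith
      rw [← hE] at hb ⊢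
      have hN1 : (1 : ℝ) ≤ ((N : ℝ) + 1) ^ (2 * (k + 1)) := one_le_pow₀ (by linarith)
      calc μ.real {ω | DC N z τ σ ε K (k + 1) Used lo hi T ρ (A ω)} ≤ E + ((N : ℝ) + 1) ^ 2 * b := by
            refine (measureReal_mono hsub (measure_ne_top _ _)).trans ((measureReal_union_le _ _).trans ?_)
            exact add_le_add (htail.trans hexp) hsum
        _ ≤ ((N : ℝ) + 1) ^ (2 * (k + 1)) * E + ((N : ℝ) + 1) ^ 2 * b := by nlinarith
        _ = ((N : ℝ) + 1) ^ (2 * (k + 1)) * (κ + ((k + 1 : ℕ) : ℝ) * E) := by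
            rw [hb]
            push_cast
            ring
    · refine le_trans (le_of_eq ?_) hRHS
      have : {ω | DC N z τ σ ε K (k + 1) Used lo hi T ρ (A ω)} = ∅ := by
        ext ω
        simp only [Set.mem_ofPred_eq, Set.mem_empty_iff_false, iff_false]
        unfold DC
        exact fun h => hc h.1
      rw [this, measureReal_empty]

/-- The chain of the true blocks. -/
theorem dc_or {S : Set ℕ} {N z : ℕ} (hz : 3 ≤ z) {τ σ ε : ℝ} (hτ : 0 ≤ τ) (hσ : 0 ≤ σ) (hε : 0 ≤ ε) (hε1 : ε ≤ 1)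
    {K : Finset ℕ → Finset ℕ → Set ℕ → Prop} (k : ℕ) :
    ∀ (Used : Finset ℕ) (lo hi : ℕ) (T : Finset ℕ) (ρ : ℕ → ℕ), 1 ≤ lo → lo ≤ hi → hi ≤ N → (∀ j < k, z ≤ (fs S)^[j] lo) →
      (∀ j < k, Disjoint (Ico ((fs S)^[j] lo) ((fs S)^[j] hi)) (Used ∪ bl S lo hi j)) → (∀ t ∈ T, lo + ρ t < hi) →
      ¬ DC N z τ σ ε K k Used lo hi T ρ S →
      ((1 - ε) * τ) ^ k * T.card ≤ (sv S k lo T ρ).card ∧ ((sv S k lo T ρ).card : ℝ) ≤ ((1 + ε) * σ) ^ k * T.card ∧
      ¬ K (Used ∪ bl S lo hi k) (sv S k lo T ρ) S := by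
  induction k with
  | zero =>
    intro Used lo hi T ρ _ _ _ _ _ _ hK
    have h1 : bl S lo hi 0 = ∅ := by simp [bl]
    have h2 : sv S 0 lo T ρ = T := by
      ext t
      rw [mem_sv]
      simp
    rw [h1, h2, union_empty]
    unfold DC at hK
    exact ⟨by simp, by simp, hK⟩
  | succ k ih =>
    intro Used lo hi T ρ h1 h1' hN h3 hd hT hK
    have hlo : z ≤ lo := h3 0 (by omega)
    have hlo3 : 3 ≤ lo := hz.trans hlo
    unfold DC at hK
    have hcond : z ≤ lo ∧ hi ≤ N ∧ Disjoint (Ico lo hi) Used ∧ ∀ t ∈ T, lo + ρ t < hi := by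
      refine ⟨hlo, hN, ?_, hT⟩
      have := hd 0 (by omega)
      rw [disjoint_union_right] at this
      exact this.1
    have hdv : ¬ Dv τ σ ε T (hit S lo T ρ) := fun h => hK ⟨hcond, Or.inl h⟩
    have hrec : ¬ DC N z τ σ ε K k (Used ∪ Ico lo hi) (fs S lo) (fs S hi) (hit S lo T ρ) (nx S lo hi ρ) S := by
      intro h
      refine hK ⟨hcond, Or.inr ⟨(fs S lo, fs S hi), ?_, h⟩⟩
      rw [mem_product, mem_range, mem_range]
      have e1 := fs_le (S := S) h1
      have e2 := fs_le (S := S) (h1.trans h1')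
      simp only
      omega
    have hnx : ∀ t ∈ T, fs S lo + nx S lo hi ρ t = fs S (lo + ρ t) := by
      intro t ht
      unfold nx fs
      rw [min_eq_left (hT t ht).le]
      have := ct_add_rk (S := S) hlo3 (show lo ≤ lo + ρ t by omega)
      omega
    have h4 : sv S k (fs S lo) (hit S lo T ρ) (nx S lo hi ρ) = sv S (k + 1) lo T ρ := by
      ext t
      rw [mem_sv, mem_sv, mem_hit]
      constructor
      · rintro ⟨⟨h5, h6⟩, h7⟩
        refine ⟨h5, fun j hj => ?_⟩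
        cases j with
        | zero => exact h6
        | succ j =>
          have := h7 j (by omega)
          rw [hnx t h5] at this
          exact this
      · rintro ⟨h5, h6⟩
        refine ⟨⟨h5, h6 0 (by omega)⟩, fun j hj => ?_⟩
        have := h6 (j + 1) (by omega)
        rw [Function.iterate_succ_apply] at this
        rw [hnx t h5]
        exact this
    have hh := ih _ _ _ _ _ (fs_pos S lo) (fs_mono S h1') ((fs_le (h1.trans h1')).trans hN) (fun j hj => ?_) (fun j hj => ?_)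
      (fun t ht => ?_) hrec
    · rw [h4] at hh
      obtain ⟨g1, g2, g3⟩ := hh
      have hq0 : 0 ≤ (1 - ε) * τ := mul_nonneg (by linarith) hτ
      have hs0 : 0 ≤ (1 + ε) * σ := mul_nonneg (by linarith) hσ
      have hl : (1 - ε) * τ * T.card ≤ ((hit S lo T ρ).card : ℝ) := by
        by_contra hcon
        exact hdv (Or.inl (not_le.1 hcon))
      have hu : ((hit S lo T ρ).card : ℝ) ≤ (1 + ε) * σ * T.card := by
        by_contra hcon
        exact hdv (Or.inr (not_le.1 hcon))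
      refine ⟨?_, ?_, ?_⟩
      · refine le_trans ?_ g1
        calc ((1 - ε) * τ) ^ (k + 1) * (T.card : ℝ) = ((1 - ε) * τ) ^ k * ((1 - ε) * τ * T.card) := by
              rw [pow_succ]
              ring
          _ ≤ _ := mul_le_mul_of_nonneg_left hl (pow_nonneg hq0 k)
      · refine g2.trans ?_
        calc ((1 + ε) * σ) ^ k * ((hit S lo T ρ).card : ℝ) ≤ ((1 + ε) * σ) ^ k * ((1 + ε) * σ * T.card) :=
              mul_le_mul_of_nonneg_left hu (pow_nonneg hs0 k)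
          _ = _ := by
              rw [pow_succ]
              ring
      · rw [bl_succ, ← union_assoc]
        exact g3
    · have := h3 (j + 1) (by omega)
      rwa [Function.iterate_succ_apply] at this
    · have := hd (j + 1) (by omega)
      rw [Function.iterate_succ_apply, Function.iterate_succ_apply, bl_succ, ← union_assoc] at this
      exact this
    · show fs S lo + nx S lo hi ρ t < fs S hi
      rw [mem_hit] at ht
      rw [hnx t ht.1]
      have h5 := hT t ht.1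
      have h6 := ct_mono S (show lo + ρ t + 1 ≤ hi by omega)
      rw [ct_succ_of_mem (by omega) ht.2] at h6
      unfold fs
      omega

end Pool.Agent.Q197.IU
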