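import Pool.Agent.Q197.IU.Params

/-!
# The exceptional events
-/

set_option autoImplicit false
set_option linter.unusedSectionVars false

namespace Pool.Agent.Q197.IU

open Finset Filter MeasureTheory ProbabilityTheory Pool.Agent.Q197.FM Pool.Agent.Q197.CI Pool.Agent.Q197.BH
  Pool.Agent.Q197.IT Pool.Agent.Q120.ET Pool.Agent.Q120.MF
open scoped Topology

variable {Ω : Type*} [MeasurableSpace Ω] {μ : Measure Ω} [IsProbabilityMeasure μ] {A : Ω → Set ℕ}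

/-- A deviation in one block. -/
def Dn (ε : ℝ) (n a b i : ℕ) (S : Set ℕ) : Prop :=
  D1 (n + 2) (zn n (a + b + 2)) (tn ε n (a + b + 2)) (sn ε n (a + b + 2)) (et ε (a + b + 2)) a b (i * Hn n)
    (n + 1 - i * Hn n - Hn n) (Hn n) S

theorem Hn_bounds : ∀ᶠ n : ℕ in atTop, (n : ℝ) ^ (1 / 4 : ℝ) / 2 ≤ Hn n ∧ (Hn n : ℝ) ≤ (n : ℝ) ^ (1 / 4 : ℝ) ∧ 1 ≤ Hn n := by
  have h1 : Tendsto (fun n : ℕ => (n : ℝ) ^ (1 / 4 : ℝ)) atTop atTop :=
    (tendsto_rpow_atTop (by norm_num)).comp tendsto_natCast_atTop_atTop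
  filter_upwards [h1.eventually_ge_atTop 2] with n h2
  have h3 := Nat.lt_floor_add_one ((n : ℝ) ^ (1 / 4 : ℝ))
  have h4 := Nat.floor_le (show 0 ≤ (n : ℝ) ^ (1 / 4 : ℝ) by linarith)
  unfold Hn
  refine ⟨by linarith, h4, ?_⟩
  have h5 : (0 : ℝ) < (⌊(n : ℝ) ^ (1 / 4 : ℝ)⌋₊ : ℝ) := by linarith
  exact_mod_cast h5

theorem expo_bound {ε : ℝ} (hε : 0 < ε) (hε1 : ε ≤ 1) : ∀ᶠ n : ℕ in atTop, ∀ k : ℕ, Ok ε n k →
    (n : ℝ) ^ (1 / 16 : ℝ) / 128 ≤ et ε k ^ 2 / 4 * (Hn n * ((1 - et ε k) * tn ε n k) ^ k) := by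
  have hlim : Tendsto (fun n : ℕ => (n : ℝ) ^ (1 / 8 : ℝ) / Real.log n ^ 2) atTop atTop := by
    have h1 : Tendsto (fun x : ℝ => Real.log x ^ (2 : ℝ) / x ^ (1 / 8 : ℝ)) atTop (𝓝 0) :=
      (isLittleO_log_rpow_rpow_atTop 2 (by norm_num)).tendsto_div_nhds_zero
    have h2 := h1.comp tendsto_natCast_atTop_atTop
    have h3 : Tendsto (fun n : ℕ => ((Real.log (n : ℝ)) ^ (2 : ℝ) / (n : ℝ) ^ (1 / 8 : ℝ))⁻¹) atTop atTop := by
      refine Tendsto.inv_tendsto_nhdsGT_zero ?_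
      rw [tendsto_nhdsWithin_iff]
      refine ⟨h2, ?_⟩
      filter_upwards [log_nat_top.eventually_gt_atTop 0, eventually_gt_atTop 0] with n h4 h5
      have hn0 : (0 : ℝ) < n := by exact_mod_cast h5
      rw [Set.mem_Ioi]
      have h6 := Real.rpow_pos_of_pos hn0 (1 / 8)
      have h7 := Real.rpow_pos_of_pos h4 2
      positivity
    refine h3.congr (fun n => ?_)
    rw [inv_div, Real.rpow_two]
  filter_upwards [ok_le hε hε1, Hn_bounds, log_nat_top.eventually_ge_atTop 1, eventually_gt_atTop 0,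
    hlim.eventually_ge_atTop (16 / ε ^ 2)] with n h1 h2 h3 h4 h5 k hk
  obtain ⟨k1, k2, k3⟩ := h1 k hk
  obtain ⟨g1, g2, g3⟩ := h2
  have hk1 := hk.1
  have hk1' : (1 : ℝ) ≤ k := by exact_mod_cast hk1
  have hn0 : (0 : ℝ) < n := by exact_mod_cast h4
  have hη := et_pos hε hk1
  have hη1 := et_le hε hε1 hk1
  have hL0 : 0 < Real.log (n : ℝ) := by linarith
  have e1 : 1 / (n : ℝ) ^ (1 / 16 : ℝ) ≤ ((1 - et ε k) * tn ε n k) ^ k := by
    have h6 : (1 / (4 * Real.log (n : ℝ))) ^ k ≤ ((1 - et ε k) * tn ε n k) ^ k := by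
      refine pow_le_pow_left₀ (by positivity) ?_ _
      unfold tn
      rw [← mul_div_assoc, div_le_div_iff₀ (by positivity) hL0]
      have h7 : 1 / 4 ≤ (1 - et ε k) * (1 - et ε k) := by nlinarith
      nlinarith
    refine le_trans ?_ h6
    rw [div_pow, one_pow]
    exact one_div_le_one_div_of_le (by positivity) k2
  have e2 : ε ^ 2 / (256 * Real.log (n : ℝ) ^ 2) ≤ et ε k ^ 2 := by
    unfold et
    rw [div_pow]
    refine div_le_div_of_nonneg_left (by positivity) (by positivity) ?_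
    rw [mul_pow]
    have h7 : (k : ℝ) ^ 2 ≤ Real.log n ^ 2 := pow_le_pow_left₀ (by linarith) k1 _
    linarith
  have e3 : ε ^ 2 / (256 * Real.log (n : ℝ) ^ 2) / 4 * ((n : ℝ) ^ (1 / 4 : ℝ) / 2 * (1 / (n : ℝ) ^ (1 / 16 : ℝ))) ≤
      et ε k ^ 2 / 4 * (Hn n * ((1 - et ε k) * tn ε n k) ^ k) := by
    refine mul_le_mul (by linarith) (mul_le_mul g1 e1 ?_ (Nat.cast_nonneg _)) ?_ (by positivity)
    · exact div_nonneg zero_le_one (Real.rpow_nonneg hn0.le _)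
    · have := Real.rpow_nonneg hn0.le (1 / 4)
      have := Real.rpow_nonneg hn0.le (1 / 16)
      positivity
  refine le_trans ?_ e3
  obtain ⟨P, hP⟩ : ∃ P : ℝ, P = (n : ℝ) ^ (1 / 16 : ℝ) := ⟨_, rfl⟩
  have hP0 : 0 < P := by rw [hP]; exact Real.rpow_pos_of_pos hn0 _
  have e4 : (n : ℝ) ^ (1 / 4 : ℝ) = P ^ 4 := by
    rw [hP, ← Real.rpow_natCast, ← Real.rpow_mul hn0.le]
    norm_num
  have e5 : (n : ℝ) ^ (1 / 8 : ℝ) = P ^ 2 := by
    rw [hP, ← Real.rpow_natCast, ← Real.rpow_mul hn0.le]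
    norm_num
  rw [e5, div_le_div_iff₀ (by positivity) (by positivity)] at h5
  rw [e4, ← hP]
  have e6 : ε ^ 2 / (256 * Real.log (n : ℝ) ^ 2) / 4 * (P ^ 4 / 2 * (1 / P)) =
      P / 128 * (P ^ 2 * ε ^ 2 / (16 * Real.log (n : ℝ) ^ 2)) := by
    field_simp
    ring
  rw [e6]
  have e7 : 1 ≤ P ^ 2 * ε ^ 2 / (16 * Real.log (n : ℝ) ^ 2) := by
    rw [le_div_iff₀ (by positivity), one_mul]
    exact h5
  have e8 : 0 < P / 128 := by positivity
  nlinarith

/-- **The exceptional events have small probabilities.** -/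
theorem ae_not (hA : IsCramer μ A) {ε : ℝ} (hε : 0 < ε) (hε1 : ε ≤ 1) : ∀ᵐ ω ∂μ, ∀ᶠ n : ℕ in atTop, ∀ a b : ℕ,
    Ok ε n (a + b + 2) → ∀ i ≤ n, ¬ Dn ε n a b i (r3 A ω) := by
  classical
  obtain ⟨E, hE⟩ : ∃ E : ℕ → Set Ω, E = fun n => ⋃ v ∈ (range n ×ˢ range n).filter (fun v : ℕ × ℕ =>
      Ok ε n (v.1 + v.2 + 2)), ⋃ i ∈ range (n + 1), {ω | Dn ε n v.1 v.2 i (r3 A ω)} := ⟨_, rfl⟩
  have hprob : ∀ᶠ n : ℕ in atTop, μ.real (E n) ≤ (n : ℝ) ^ (-2 : ℝ) := by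
    filter_upwards [ok_le hε hε1, zn_log hε hε1, prob_bounds hε hε1, expo_bound hε hε1, Hn_bounds,
      numeric (δ := 1 / 16) (by norm_num), log_nat_top.eventually_ge_atTop 4, eventually_ge_atTop 16] with n h1 h2 h3 h4 h5 h6 h7 h8
    have hn0 : (0 : ℝ) < n := by exact_mod_cast (by omega : 0 < n)
    have hn16 : (16 : ℝ) ≤ n := by exact_mod_cast h8
    have hx : 2 * (n : ℝ) ^ 3 * Real.exp (-((n : ℝ) ^ (1 / 16 : ℝ) / 256)) ≤ 1 := by
      have h9 := h6 1 (by push_cast; linarith)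
      rw [Nat.cast_one, one_mul, mul_one] at h9
      have h10 : (n : ℝ) ^ (-2 : ℝ) ≤ 1 := Real.rpow_le_one_of_one_le_of_nonpos (by linarith) (by norm_num)
      refine le_trans ?_ (h9.trans h10)
      have h11 : 2 * (n : ℝ) ^ 3 ≤ (n : ℝ) ^ 2 * ((n : ℝ) + 3) ^ 2 := by
        have e0 : (n : ℝ) ^ 2 * (2 * n) ≤ (n : ℝ) ^ 2 * ((n : ℝ) + 3) ^ 2 :=
          mul_le_mul_of_nonneg_left (by nlinarith) (by positivity)
        calc 2 * (n : ℝ) ^ 3 = (n : ℝ) ^ 2 * (2 * n) := by ring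
          _ ≤ _ := e0
      calc 2 * (n : ℝ) ^ 3 * Real.exp (-((n : ℝ) ^ (1 / 16 : ℝ) / 256)) ≤
            (n : ℝ) ^ 2 * ((n : ℝ) + 3) ^ 2 * Real.exp (-((n : ℝ) ^ (1 / 16 : ℝ) / 256)) :=
            mul_le_mul_of_nonneg_right h11 (Real.exp_pos _).le
        _ = _ := by ring
    rw [hE]
    refine (measureReal_biUnion_finset_le _ _).trans ?_
    have hev : ∀ v ∈ (range n ×ˢ range n).filter (fun v : ℕ × ℕ => Ok ε n (v.1 + v.2 + 2)),
        μ.real (⋃ i ∈ range (n + 1), {ω | Dn ε n v.1 v.2 i (r3 A ω)}) ≤ (n : ℝ) ^ (-4 : ℝ) := by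
      intro v hv
      rw [mem_filter] at hv
      obtain ⟨k, hk⟩ : ∃ k : ℕ, k = v.1 + v.2 + 2 := ⟨_, rfl⟩
      have hv2 := hv.2
      rw [← hk] at hv2
      obtain ⟨k1, k2, k3⟩ := h1 k hv2
      obtain ⟨z1, z2⟩ := h2 k hv2
      have hk1 := hv2.1
      have hη := et_pos hε hk1
      have hη1 := et_le hε hε1 hk1
      have ht0 : 0 < tn ε n k := by
        unfold tn
        exact div_pos (by linarith) (by linarith)
      have ht1 : tn ε n k ≤ 1 := by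
        unfold tn
        rw [div_le_one (by linarith)]
        linarith
      have h9 : ∀ i ∈ range (n + 1), μ.real {ω | Dn ε n v.1 v.2 i (r3 A ω)} ≤
          ((n : ℝ) + 3) ^ (2 * k) * (k * (2 * Real.exp (-((n : ℝ) ^ (1 / 16 : ℝ) / 128)))) := by
        intro i _
        have h10 := two_dc (r3_indep hA) (N := n + 2) z1 ht0 ht1 hη (by linarith) (σ := sn ε n k) (fun a ha haN => by
          rw [r3_prob hA (z1.trans ha)]
          exact h3 k hv2 a ha haN) v.1 v.2 (i * Hn n) (n + 1 - i * Hn n - Hn n) (Hn n) h5.2.2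
        rw [← hk] at h10
        unfold Dn
        rw [← hk]
        refine h10.trans ?_
        have h11 : (((n + 2 : ℕ) : ℝ) + 1) = (n : ℝ) + 3 := by push_cast; ring
        rw [h11]
        have h12 := Real.exp_le_exp.2 (neg_le_neg (h4 k hv2))
        exact mul_le_mul_of_nonneg_left (mul_le_mul_of_nonneg_left (mul_le_mul_of_nonneg_left h12 (by norm_num))
          (Nat.cast_nonneg _)) (by positivity)
      refine (measureReal_biUnion_finset_le _ _).trans ((sum_le_sum h9).trans ?_)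
      rw [sum_const, card_range, nsmul_eq_mul]
      have h13 := h6 k k1
      obtain ⟨F, hF⟩ : ∃ F : ℝ, F = Real.exp (-((n : ℝ) ^ (1 / 16 : ℝ) / 256)) := ⟨_, rfl⟩
      have hF0 : 0 < F := by rw [hF]; exact Real.exp_pos _
      have hFF : Real.exp (-((n : ℝ) ^ (1 / 16 : ℝ) / 128)) = F * F := by
        rw [hF, ← Real.exp_add]
        congr 1
        ring
      rw [← hF] at hx h13
      rw [hFF]
      have e4 : (n : ℝ) ^ (-4 : ℝ) * (n : ℝ) ^ 2 = (n : ℝ) ^ (-2 : ℝ) := by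
        rw [← Real.rpow_natCast (n : ℝ) 2, ← Real.rpow_add hn0]
        norm_num
      have e5 : (0 : ℝ) < (n : ℝ) ^ 2 := by positivity
      refine le_of_mul_le_mul_right ?_ e5
      rw [e4]
      refine le_trans ?_ h13
      obtain ⟨Y, hY⟩ : ∃ Y : ℝ, Y = ((n : ℝ) + 3) ^ (2 * k) * (k * F) := ⟨_, rfl⟩
      have hY0 : 0 ≤ Y := by rw [hY]; positivity
      have e6 : ((n + 1 : ℕ) : ℝ) * (((n : ℝ) + 3) ^ (2 * k) * (k * (2 * (F * F)))) * (n : ℝ) ^ 2 =
          (2 * ((n : ℝ) + 1) * F) * ((n : ℝ) ^ 2 * Y) := by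
        rw [hY]
        push_cast
        ring
      rw [e6, ← hY]
      have e7 : 2 * ((n : ℝ) + 1) * F ≤ 1 := by
        refine le_trans (mul_le_mul_of_nonneg_right ?_ hF0.le) hx
        have e8 : (n : ℝ) + 1 ≤ (n : ℝ) ^ 3 := by
          have : (n : ℝ) ^ 2 * n ≥ 16 ^ 2 * n := by
            refine mul_le_mul_of_nonneg_right ?_ hn0.le
            nlinarith
          nlinarith
        linarith
      have e9 : 0 ≤ (n : ℝ) ^ 2 * Y := by positivity
      nlinarith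
    refine (sum_le_card_nsmul _ _ _ hev).trans ?_
    rw [nsmul_eq_mul]
    have h9 : ((((range n ×ˢ range n).filter (fun v : ℕ × ℕ => Ok ε n (v.1 + v.2 + 2))).card : ℕ) : ℝ) ≤ (n : ℝ) ^ 2 := by
      have := card_filter_le (range n ×ˢ range n) (fun v : ℕ × ℕ => Ok ε n (v.1 + v.2 + 2))
      rw [card_product, card_range] at this
      rw [sq]
      exact_mod_cast this
    refine (mul_le_mul_of_nonneg_right h9 (by positivity)).trans (le_of_eq ?_)
    rw [← Real.rpow_natCast (n : ℝ) 2, ← Real.rpow_add hn0]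
    norm_num
  have hbc : ∀ᵐ ω ∂μ, ∀ᶠ n in atTop, ω ∉ E n :=
    Pool.Agent.Q197.CI.bc hprob (Real.summable_nat_rpow.2 (by norm_num))
  filter_upwards [hbc] with ω h1
  filter_upwards [h1, ok_le hε hε1, log_nat_top.eventually_ge_atTop 4, eventually_ge_atTop 16] with n h2 h3 h4 h5 a b hab i hi hcon
  apply h2
  rw [hE]
  simp only [Set.mem_iUnion, exists_prop]
  obtain ⟨k1, k2, k3⟩ := h3 _ hab
  have hn0 : (0 : ℝ) < n := by exact_mod_cast (by omega : 0 < n)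
  have hkn : a + b + 2 < n := by
    have h9 := Real.log_le_sub_one_of_pos hn0
    have : ((a + b + 2 : ℕ) : ℝ) < n := by linarith
    exact_mod_cast this
  refine ⟨(a, b), ?_, i, ?_, hcon⟩
  · rw [mem_filter, mem_product, mem_range, mem_range]
    exact ⟨⟨by simp only; omega, by simp only; omega⟩, hab⟩
  · rw [mem_range]
    omega

end Pool.Agent.Q197.IU
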