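import Pool.Agent.Q197.IU.Event

/-!
# The number of the representations
-/

set_option autoImplicit false
set_option linter.unusedSectionVars false

namespace Pool.Agent.Q197.IU

open Finset Filter MeasureTheory ProbabilityTheory Pool.Agent.Q197.FM Pool.Agent.Q197.CI Pool.Agent.Q197.BH
  Pool.Agent.Q197.IT Pool.Agent.Q120.ET Pool.Agent.Q120.MF
open scoped Topology

/-- the number of the blocks -/
noncomputable def i1n (n : ℕ) : ℕ := (n + 1) / (2 * Hn n)

/-- the first block -/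
noncomputable def i0n (n k : ℕ) : ℕ := ⌈(n : ℝ) / (Real.log n ^ (k + 1) * Hn n)⌉₊

theorem pow_bounds {η ε : ℝ} {k : ℕ} (hη : 0 < η) (hη1 : η ≤ 1) (hε : 0 < ε) (hε1 : ε ≤ 1)
    (h : 2 * (k : ℝ) * η = ε / 8) : 1 - ε / 8 ≤ (1 - η) ^ (2 * k) ∧ (1 + η) ^ (2 * k) ≤ 1 + ε / 4 := by
  have t3 : 1 - ε / 8 ≤ (1 - η) ^ (2 * k) := by
    have := one_add_mul_le_pow (show (-2 : ℝ) ≤ -η by linarith) (2 * k)
    push_cast at this
    have e : 1 + 2 * (k : ℝ) * -η = 1 - ε / 8 := by linarith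
    rw [e] at this
    have e2 : (1 : ℝ) + -η = 1 - η := by ring
    rw [e2] at this
    exact this
  refine ⟨t3, ?_⟩
  have h9 : (1 + η) ^ (2 * k) * (1 - η) ^ (2 * k) ≤ 1 := by
    rw [← mul_pow]
    refine pow_le_one₀ ?_ ?_
    · exact mul_nonneg (by linarith) (by linarith)
    · nlinarith
  have h10 : (1 + η) ^ (2 * k) * (1 - ε / 8) ≤ 1 :=
    le_trans (mul_le_mul_of_nonneg_left t3 (by positivity)) h9
  have h11 : 1 ≤ (1 + ε / 4) * (1 - ε / 8) := by nlinarith
  have h12 : 0 < 1 - ε / 8 := by linarith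
  exact le_of_mul_le_mul_right (h10.trans h11) h12

theorem kH_bound {P H k ε y : ℝ} (hP : 64 ≤ P) (hH : 0 ≤ H) (hHP : H ≤ P ^ 4) (hk : k + 2 ≤ 2 * P) (hy : 0 ≤ y) (hyP : y ≤ P)
    (hεP : 64 ≤ ε * P) : (k + 2) * H * y ≤ ε / 64 * P ^ 16 := by
  have hP0 : 0 < P := by linarith
  have h10 : (k + 2) * H ≤ 2 * P * P ^ 4 := by
    calc (k + 2) * H ≤ 2 * P * H := mul_le_mul_of_nonneg_right hk hH
      _ ≤ _ := mul_le_mul_of_nonneg_left hHP (by positivity)
  have h13 : (k + 2) * H * y ≤ 2 * P * P ^ 4 * P := by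
    calc (k + 2) * H * y ≤ 2 * P * P ^ 4 * y := mul_le_mul_of_nonneg_right h10 hy
      _ ≤ _ := mul_le_mul_of_nonneg_left hyP (by positivity)
  refine h13.trans ?_
  have h12 : 2 * P ^ 6 ≤ P ^ 15 := by
    have e : P ^ 6 * P ^ 9 = P ^ 15 := by ring
    have : 2 ≤ P ^ 9 := by
      calc (2 : ℝ) ≤ P ^ 1 := by rw [pow_one]; linarith
        _ ≤ P ^ 9 := pow_le_pow_right₀ (by linarith) (by norm_num)
    have h5' : 0 < P ^ 6 := by positivity
    nlinarith
  calc 2 * P * P ^ 4 * P = 2 * P ^ 6 := by ring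
    _ ≤ P ^ 15 := h12
    _ ≤ ε * P / 64 * P ^ 15 := by
        have : 1 ≤ ε * P / 64 := by linarith
        have h15 : 0 < P ^ 15 := by positivity
        nlinarith
    _ = _ := by ring

theorem arith {n H i0 i1 b k ε T U X Lk W : ℝ} (hε : 0 < ε) (hε1 : ε ≤ 1) (hn : 0 < n) (hH : 0 ≤ H) (hLk : 0 ≤ Lk)
    (q1 : 2 * (i1 * H) ≤ n + 1) (q2 : n + 1 - 2 * H ≤ 2 * (i1 * H)) (q4 : i0 * H ≤ W + H) (hW : W * Lk ≤ ε / 64 * n)
    (hW2 : W ≤ ε / 64 * n) (hb : 0 ≤ b) (hbk : b ≤ k) (c1 : (k + 2) * H ≤ ε / 64 * n) (c2 : (k + 2) * H * Lk ≤ ε / 64 * n)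
    (c3 : 1 ≤ ε / 64 * n) (t3 : 1 - ε / 8 ≤ T) (t4 : U ≤ 1 + ε / 4) (m1 : T * ((i1 - i0 - b) * H) ≤ X * Lk)
    (m2 : X * Lk ≤ U * (i1 * H) + (i0 + b) * H * Lk) : (1 - ε) * (n / 2) ≤ X * Lk ∧ X * Lk ≤ (1 + ε) * (n / 2) := by
  have hbH : b * H ≤ k * H := mul_le_mul_of_nonneg_right hbk hH
  have h10 : (1 - ε / 8) * (n / 2) ≤ (i1 - i0 - b) * H := by
    have h12 : (i1 - i0 - b) * H = i1 * H - i0 * H - b * H := by ring
    rw [h12]
    have c1' : k * H + 2 * H ≤ ε / 64 * n := by linarith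
    linarith
  constructor
  · have h13 : 0 ≤ (i1 - i0 - b) * H := by
      refine le_trans ?_ h10
      exact mul_nonneg (by linarith) (by linarith)
    have h14 : (1 - ε / 8) * ((1 - ε / 8) * (n / 2)) ≤ X * Lk := by
      refine le_trans ?_ m1
      exact mul_le_mul t3 h10 (mul_nonneg (by linarith) (by linarith)) (by linarith)
    refine le_trans ?_ h14
    rw [← mul_assoc]
    refine mul_le_mul_of_nonneg_right ?_ (by linarith)
    nlinarith
  · refine m2.trans ?_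
    have hiH : 0 ≤ i1 * H := by
      have : 2 * H ≤ ε / 64 * n := by
        have h0 : 0 ≤ k * H := le_trans (mul_nonneg hb hH) hbH
        linarith
      nlinarith
    have h16 : U * (i1 * H) ≤ (1 + ε / 4) * ((n + 1) / 2) := by
      calc U * (i1 * H) ≤ (1 + ε / 4) * (i1 * H) := mul_le_mul_of_nonneg_right t4 hiH
        _ ≤ _ := mul_le_mul_of_nonneg_left (by linarith) (by linarith)
    have h17 : i0 * H * Lk ≤ ε / 64 * n + H * Lk := by
      have := mul_le_mul_of_nonneg_right q4 hLk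
      rw [add_mul] at this
      linarith
    have h18 : b * H * Lk ≤ k * H * Lk := mul_le_mul_of_nonneg_right hbH hLk
    have h19 : (i0 + b) * H * Lk = i0 * H * Lk + b * H * Lk := by ring
    have h20 : (k + 2) * H * Lk = k * H * Lk + 2 * (H * Lk) := by ring
    have h21 : 0 ≤ H * Lk := mul_nonneg hH hLk
    have h22 : (1 + ε / 4) * ((n + 1) / 2) ≤ n / 2 + ε / 8 * n + 1 := by nlinarith
    rw [h19]
    rw [h20] at c2
    have h23 : (1 + ε) * (n / 2) = n / 2 + ε / 2 * n := by ring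
    have h24 : 0 < ε * n := mul_pos hε hn
    rw [h23]
    linarith

/-- Deterministic: if no block has a deviation then the count is right. -/
theorem half_law {S : Set ℕ} (hct : Tendsto (fun x : ℕ => (ct S x : ℝ) * Real.log x / x) atTop (𝓝 1)) {ε : ℝ} (hε : 0 < ε)
    (hε1 : ε ≤ 1) (hD : ∀ᶠ n : ℕ in atTop, ∀ a b : ℕ, Ok ε n (a + b + 2) → ∀ i ≤ n, ¬ Dn ε n a b i S) :
    ∀ᶠ n : ℕ in atTop, ∀ a b : ℕ, Ok ε n (a + b + 2) →
      (1 - ε) * (n / 2) ≤ (Hf S a b n (i1n n * Hn n)).card * Real.log n ^ (a + b + 2) ∧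
      ((Hf S a b n (i1n n * Hn n)).card : ℝ) * Real.log n ^ (a + b + 2) ≤ (1 + ε) * (n / 2) := by
  classical
  obtain ⟨x0, hx0⟩ : ∃ x0 : ℕ, ∀ x : ℕ, x0 ≤ x → (x : ℝ) / (2 * Real.log x) ≤ ct S x := by
    have h2 := (hct.eventually_const_lt (show (1 / 2 : ℝ) < 1 by norm_num))
    obtain ⟨x0, h3⟩ := eventually_atTop.1 (h2.and (eventually_ge_atTop 3))
    refine ⟨x0, fun x hx => ?_⟩
    obtain ⟨h4, h5⟩ := h3 x hx
    have hx3 : (3 : ℝ) ≤ x := by exact_mod_cast h5
    have hlx : 0 < Real.log (x : ℝ) := Real.log_pos (by linarith)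
    rw [lt_div_iff₀ (by linarith)] at h4
    rw [div_le_iff₀ (by positivity)]
    linarith
  have hct2 : ∀ᶠ x : ℕ in atTop, (ct S x : ℝ) ≤ x / 16 := by
    filter_upwards [hct.eventually_lt_const (show (1 : ℝ) < 2 by norm_num), log_nat_top.eventually_ge_atTop 32,
      eventually_ge_atTop 1] with x h2 h3 h4
    have hx0 : (0 : ℝ) < x := by exact_mod_cast h4
    rw [div_lt_iff₀ hx0] at h2
    have h5 : (ct S x : ℝ) * 32 ≤ ct S x * Real.log x := mul_le_mul_of_nonneg_left h3 (Nat.cast_nonneg _)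
    linarith
  obtain ⟨x1, hx1⟩ := eventually_atTop.1 hct2
  have hbig : Tendsto (fun n : ℕ => (n : ℝ) ^ (1 / 16 : ℝ)) atTop atTop :=
    (tendsto_rpow_atTop (by norm_num)).comp tendsto_natCast_atTop_atTop
  have hlogP : Tendsto (fun n : ℕ => Real.log (n : ℝ) / (n : ℝ) ^ (1 / 16 : ℝ)) atTop (𝓝 0) :=
    ((isLittleO_log_rpow_atTop (by norm_num)).tendsto_div_nhds_zero).comp tendsto_natCast_atTop_atTop
  filter_upwards [hD, ok_le hε hε1, zn_log hε hε1, Hn_bounds, log_nat_top.eventually_ge_atTop (64 / ε),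
    eventually_ge_atTop 64, hbig.eventually_ge_atTop ((x0 : ℝ) + x1 + 64 / ε), hlogP.eventually_lt_const
    (show (0 : ℝ) < 1 by norm_num)] with n h1 h2 h3 h4 h5 h6 h7 h8 a b hab
  obtain ⟨k, hk⟩ : ∃ k : ℕ, k = a + b + 2 := ⟨_, rfl⟩
  have hkab : (b : ℝ) ≤ k := by
    rw [hk]
    push_cast
    have : (0 : ℝ) ≤ a := Nat.cast_nonneg _
    linarith
  rw [← hk] at hab
  obtain ⟨k1, k2, k3⟩ := h2 k hab
  obtain ⟨z1, z2⟩ := h3 k hab
  obtain ⟨g1, g2, g3⟩ := h4
  have hk1 := hab.1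
  have hk1' : (1 : ℝ) ≤ k := by exact_mod_cast hk1
  have hn0 : (0 : ℝ) < n := by exact_mod_cast (by omega : 0 < n)
  have hη := et_pos hε hk1
  have hη1 := et_le hε hε1 hk1
  have h64 : 64 ≤ 64 / ε := by
    rw [le_div_iff₀ hε]
    linarith
  obtain ⟨L, hL⟩ : ∃ L : ℝ, L = Real.log n := ⟨_, rfl⟩
  rw [← hL] at h5 h8 k1 k2 k3 z2
  have hL64 : 64 ≤ L := h64.trans h5
  have hL0 : 0 < L := by linarith
  obtain ⟨P, hP⟩ : ∃ P : ℝ, P = (n : ℝ) ^ (1 / 16 : ℝ) := ⟨_, rfl⟩
  have hP0 : 0 < P := by rw [hP]; exact Real.rpow_pos_of_pos hn0 _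
  have e4 : (n : ℝ) ^ (1 / 4 : ℝ) = P ^ 4 := by
    rw [hP, ← Real.rpow_natCast, ← Real.rpow_mul hn0.le]
    norm_num
  have e16 : (n : ℝ) = P ^ 16 := by
    rw [hP, ← Real.rpow_natCast, ← Real.rpow_mul hn0.le]
    norm_num
  rw [← hP] at h7 h8 k2 k3
  rw [e4] at g1 g2
  have hx0' : (0 : ℝ) ≤ x0 := Nat.cast_nonneg _
  have hx1' : (0 : ℝ) ≤ x1 := Nat.cast_nonneg _
  have hP64 : 64 / ε ≤ P := by linarith
  have hP64' : 64 ≤ P := h64.trans hP64
  have hLP : L ≤ P := by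
    rw [div_lt_one hP0] at h8
    exact h8.le
  obtain ⟨H, hH⟩ : ∃ H : ℕ, H = Hn n := ⟨_, rfl⟩
  rw [← hH] at g1 g2 g3
  obtain ⟨i1, hi1⟩ : ∃ i1 : ℕ, i1 = i1n n := ⟨_, rfl⟩
  obtain ⟨i0, hi0⟩ : ∃ i0 : ℕ, i0 = i0n n k := ⟨_, rfl⟩
  have hH0 : (0 : ℝ) < H := by exact_mod_cast g3
  -- the last block
  have q1 : 2 * (i1 * H) ≤ n + 1 := by
    rw [hi1]
    unfold i1n
    rw [← hH]
    have := Nat.div_mul_le_self (n + 1) (2 * H)
    calc 2 * ((n + 1) / (2 * H) * H) = (n + 1) / (2 * H) * (2 * H) := by ring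
      _ ≤ _ := this
  have q2 : (n : ℝ) + 1 - 2 * H ≤ 2 * (i1 * H) := by
    have h9 : n + 1 < ((n + 1) / (2 * H) + 1) * (2 * H) := Nat.lt_mul_of_div_lt (by omega) (by omega)
    have h10 : ((n : ℝ) + 1) < (i1 + 1) * (2 * H) := by
      rw [hi1]
      unfold i1n
      rw [← hH]
      exact_mod_cast h9
    linarith
  have q1' : 2 * ((i1 : ℝ) * H) ≤ n + 1 := by exact_mod_cast q1
  -- the first block
  have q3 : (n : ℝ) / L ^ (k + 1) ≤ i0 * H := by
    have h9 : (n : ℝ) / (L ^ (k + 1) * H) ≤ i0 := by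
      rw [hi0]
      unfold i0n
      rw [← hL, ← hH]
      exact Nat.le_ceil _
    rw [← div_div, div_le_iff₀ hH0] at h9
    exact h9
  have q4 : (i0 : ℝ) * H ≤ n / L ^ (k + 1) + H := by
    have h9 : (i0 : ℝ) ≤ (n : ℝ) / (L ^ (k + 1) * H) + 1 := by
      rw [hi0]
      unfold i0n
      rw [← hL, ← hH]
      exact (Nat.ceil_lt_add_one (by positivity)).le
    have h10 := mul_le_mul_of_nonneg_right h9 hH0.le
    rw [add_mul, one_mul, ← div_div, div_mul_cancel₀ _ hH0.ne'] at h10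
    exact h10
  have hLk : L ^ (k + 1) ≤ (2 * L) ^ (2 * k + 1) := by
    calc L ^ (k + 1) ≤ (2 * L) ^ (k + 1) := pow_le_pow_left₀ hL0.le (by linarith) _
      _ ≤ _ := pow_le_pow_right₀ (by linarith) (by omega)
  have hLkP : L ^ (k + 1) ≤ P := hLk.trans k3
  have hLkP2 : L ^ k ≤ P := by
    refine le_trans ?_ k2
    exact pow_le_pow_left₀ hL0.le (by linarith) _
  have q5 : P ^ 15 ≤ (n : ℝ) / L ^ (k + 1) := by
    rw [le_div_iff₀ (by positivity), e16]
    calc P ^ 15 * L ^ (k + 1) ≤ P ^ 15 * P := mul_le_mul_of_nonneg_left hLkP (by positivity)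
      _ = P ^ 16 := by ring
  have hP15 : P ^ 5 ≤ P ^ 15 := pow_le_pow_right₀ (by linarith) (by norm_num)
  have hP5 : 64 * P ^ 4 ≤ P ^ 5 := by
    have : 0 < P ^ 4 := by positivity
    calc 64 * P ^ 4 ≤ P * P ^ 4 := mul_le_mul_of_nonneg_right hP64' this.le
      _ = P ^ 5 := by ring
  have hP1 : P ≤ P ^ 5 := by
    calc P = P ^ 1 := (pow_one P).symm
      _ ≤ P ^ 5 := pow_le_pow_right₀ (by linarith) (by norm_num)
  have hcge : ∀ i : ℕ, i0 ≤ i → (n : ℝ) / L ^ (k + 1) ≤ ((i * H : ℕ) : ℝ) := by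
    intro i hi
    refine q3.trans ?_
    have : i0 * H ≤ i * H := Nat.mul_le_mul_right H hi
    exact_mod_cast this
  have hmain := half_count (S := S) (N := n + 2) (z := zn n k) (n := n) (a := a) (b := b) (H := H) (i0 := i0) (i1 := i1)
    (τ := tn ε n k) (σ := sn ε n k) (ε := et ε k) z1 (by
      unfold tn
      rw [← hL]
      exact div_nonneg (by linarith) hL0.le) (by
      unfold sn
      rw [← hL]
      exact div_nonneg (by linarith) hL0.le) hη.le (by linarith) g3 q1 (by omega) (fun i hi1' hi2 => ?_)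
      (fun i hi1' hi2 j hj => ?_) (fun i hi => ?_)
  · obtain ⟨m1, m2⟩ := hmain
    rw [← hk] at m1 m2 ⊢
    rw [← hL, ← hH, ← hi1]
    obtain ⟨X, hX⟩ : ∃ X : ℝ, X = ((Hf S a b n (i1 * H)).card : ℝ) := ⟨_, rfl⟩
    rw [← hX] at m1 m2 ⊢
    have hLkpos : 0 < L ^ k := by positivity
    obtain ⟨η, hηe⟩ : ∃ η : ℝ, η = et ε k := ⟨_, rfl⟩
    have h2kη : 2 * (k : ℝ) * η = ε / 8 := by
      rw [hηe]
      unfold et
      field_simp
      norm_num
    rw [← hηe] at m1 m2 hη hη1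
    obtain ⟨t3, t4⟩ := pow_bounds (k := k) hη (by linarith) hε hε1 h2kη
    have t1 : ((1 - η) * tn ε n k) ^ k * L ^ k = (1 - η) ^ (2 * k) := by
      unfold tn
      rw [← hηe, ← hL, ← mul_pow]
      have : (1 - η) * ((1 - η) / L) * L = (1 - η) ^ 2 := by
        field_simp
      rw [this, ← pow_mul]
    have t2 : ((1 + η) * sn ε n k) ^ k * L ^ k = (1 + η) ^ (2 * k) := by
      unfold sn
      rw [← hηe, ← hL, ← mul_pow]
      have : (1 + η) * ((1 + η) / L) * L = (1 + η) ^ 2 := by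
        field_simp
      rw [this, ← pow_mul]
    have hεL : 64 ≤ ε * L := by
      rw [div_le_iff₀ hε] at h5
      linarith
    have hεP : 64 ≤ ε * P := by
      rw [div_le_iff₀ hε] at hP64
      linarith
    have m1' : (1 - η) ^ (2 * k) * (((i1 : ℝ) - i0 - b) * H) ≤ X * L ^ k := by
      have h14 := mul_le_mul_of_nonneg_right m1 hLkpos.le
      have h15 : ((1 - η) * tn ε n k) ^ k * (((i1 : ℝ) - i0 - b) * H) * L ^ k =
          (1 - η) ^ (2 * k) * (((i1 : ℝ) - i0 - b) * H) := by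
        rw [← t1]
        ring
      rw [h15] at h14
      exact h14
    have m2' : X * L ^ k ≤ (1 + η) ^ (2 * k) * (i1 * H) + ((i0 : ℝ) + b) * H * L ^ k := by
      have h14 := mul_le_mul_of_nonneg_right m2 hLkpos.le
      have h15 : (((1 + η) * sn ε n k) ^ k * (i1 * H) + ((i0 : ℝ) + b) * H) * L ^ k =
          (1 + η) ^ (2 * k) * (i1 * H) + ((i0 : ℝ) + b) * H * L ^ k := by
        rw [← t2]
        ring
      rw [h15] at h14
      exact h14
    have c1 : ((k : ℝ) + 2) * H * 1 ≤ ε / 64 * n := by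
      rw [e16]
      exact kH_bound (by linarith) hH0.le g2 (by linarith) (by norm_num) (by linarith) hεP
    have c2 : ((k : ℝ) + 2) * H * L ^ k ≤ ε / 64 * n := by
      rw [e16]
      exact kH_bound (by linarith) hH0.le g2 (by linarith) hLkpos.le hLkP2 hεP
    have hnP : P ≤ n := by
      rw [e16]
      exact le_self_pow₀ (by linarith) (by norm_num)
    have hW : (n : ℝ) / L ^ (k + 1) * L ^ k = n / L := by
      rw [pow_succ]
      field_simp
    have hW2 : (n : ℝ) / L ≤ ε / 64 * n := by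
      rw [div_le_iff₀ hL0]
      clear * - hεL hn0
      nlinarith
    have hW3 : (n : ℝ) / L ^ (k + 1) ≤ ε / 64 * n := by
      refine le_trans ?_ hW2
      refine div_le_div_of_nonneg_left hn0.le hL0 ?_
      exact le_self_pow₀ (by linarith) (by omega)
    exact arith hε hε1 hn0 hH0.le hLkpos.le q1' q2 q4 (by rw [hW]; exact hW2) hW3 (Nat.cast_nonneg _) hkab (by rwa [mul_one] at c1) c2
      (by
        clear * - hεP hnP hε
        nlinarith) t3 t4 m1' m2'
  · -- the next positions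
    have h9 := hcge i hi1'
    have hc5 : P ^ 5 ≤ ((i * H : ℕ) : ℝ) := (hP15.trans q5).trans h9
    have hHc : 64 * H ≤ i * H := by
      have : (64 : ℝ) * H ≤ ((i * H : ℕ) : ℝ) := by linarith
      exact_mod_cast this
    have hx1c : x1 ≤ i * H := by
      have : (x1 : ℝ) ≤ ((i * H : ℕ) : ℝ) := by
        have h0 : 0 < 64 / ε := by positivity
        linarith
      exact_mod_cast this
    have h6' : i * H + H ≤ i1 * H := by
      have : (i + 1) * H ≤ i1 * H := Nat.mul_le_mul_right H hi2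
      linarith
    have hH1 : 1 ≤ H := g3
    constructor
    · have h10 := hx1 (i * H + H) (by omega)
      have h11 : 16 * ct S (i * H + H) ≤ i * H + H := by
        have : (16 : ℝ) * ct S (i * H + H) ≤ ((i * H + H : ℕ) : ℝ) := by linarith
        exact_mod_cast this
      unfold fs
      omega
    · have h10 := hx1 (n + 1 - i * H) (by omega)
      have h11 : 16 * ct S (n + 1 - i * H) ≤ n + 1 - i * H := by
        have : (16 : ℝ) * ct S (n + 1 - i * H) ≤ ((n + 1 - i * H : ℕ) : ℝ) := by linarith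
        exact_mod_cast this
      unfold fs
      omega
  · -- the lower positions
    have h9 := hcge i hi1'
    have hH1 : 1 ≤ H := g3
    rw [← hk] at hj
    have h6' : i * H + H ≤ i1 * H := by
      have : (i + 1) * H ≤ i1 * H := Nat.mul_le_mul_right H hi2
      linarith
    have hcn : i * H ≤ n := by omega
    have h10 : (n : ℝ) / (2 * L) ^ (2 * k + 1) ≤ ((i * H : ℕ) : ℝ) / (2 * L) ^ j := by
      have h11 : (n : ℝ) / L ^ (k + 1) / (2 * L) ^ j ≤ ((i * H : ℕ) : ℝ) / (2 * L) ^ j :=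
        div_le_div_of_nonneg_right h9 (by positivity)
      refine le_trans ?_ h11
      rw [div_div]
      refine div_le_div_of_nonneg_left hn0.le (by positivity) ?_
      calc L ^ (k + 1) * (2 * L) ^ j ≤ (2 * L) ^ (k + 1) * (2 * L) ^ k :=
            mul_le_mul (pow_le_pow_left₀ hL0.le (by linarith) _) (pow_le_pow_right₀ (by linarith) hj.le) (by positivity)
              (by positivity)
        _ = (2 * L) ^ (2 * k + 1) := by
            rw [← pow_add]
            congr 1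
            ring
    have h12 : (x0 : ℝ) + 3 ≤ (n : ℝ) / (2 * L) ^ (2 * k + 1) := by
      rw [le_div_iff₀ (by positivity)]
      calc ((x0 : ℝ) + 3) * (2 * L) ^ (2 * k + 1) ≤ P * P := by
            refine mul_le_mul ?_ k3 (by positivity) hP0.le
            linarith
        _ = P ^ 2 := by ring
        _ ≤ P ^ 16 := pow_le_pow_right₀ (by linarith) (by norm_num)
        _ = n := e16.symm
    have h13 := it_lower (S := S) (x0 := (x0 : ℝ) + 3) (by linarith) (fun x hx => hx0 x (by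
        have h14 : (x0 : ℝ) ≤ x := by linarith
        exact_mod_cast h14)) (c := i * H) (L := L) (by linarith) (by
          rw [hL]
          refine Real.log_le_log ?_ (by exact_mod_cast hcn)
          have : 0 < (n : ℝ) / L ^ (k + 1) := by positivity
          linarith) j (h12.trans h10)
    unfold zn
    rw [← hL, Nat.ceil_le]
    exact h10.trans h13
  · have h9 := h1 a b (by rw [← hk]; exact hab) i (by
      have h6' : i * H + H ≤ i1 * H := by
        have : (i + 1) * H ≤ i1 * H := Nat.mul_le_mul_right H hi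
        linarith
      have : i * 1 ≤ i * H := Nat.mul_le_mul_left i g3
      omega)
    unfold Dn at h9
    rw [← hk, ← hH] at h9
    exact h9

end Pool.Agent.Q197.IU
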