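import Pool.Agent.Q197.IU.Sum

/-!
# The parameters
-/

set_option autoImplicit false
set_option linter.unusedSectionVars false

namespace Pool.Agent.Q197.IU

open Finset Filter MeasureTheory ProbabilityTheory Pool.Agent.Q197.FM Pool.Agent.Q197.CI Pool.Agent.Q197.BH
  Pool.Agent.Q197.IT Pool.Agent.Q120.ET Pool.Agent.Q120.MF
open scoped Topology

/-- the length of the blocks -/
noncomputable def Hn (n : ℕ) : ℕ := ⌊(n : ℝ) ^ (1 / 4 : ℝ)⌋₊

/-- the relative error at one step -/
noncomputable def et (ε : ℝ) (k : ℕ) : ℝ := ε / (16 * k)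

/-- the lower bound for the positions -/
noncomputable def zn (n k : ℕ) : ℕ := ⌈(n : ℝ) / (2 * Real.log n) ^ (2 * k + 1)⌉₊

/-- the lower bound for the probabilities -/
noncomputable def tn (ε : ℝ) (n k : ℕ) : ℝ := (1 - et ε k) / Real.log n

/-- the upper bound for the probabilities -/
noncomputable def sn (ε : ℝ) (n k : ℕ) : ℝ := (1 + et ε k) / Real.log n

theorem et_pos {ε : ℝ} (hε : 0 < ε) {k : ℕ} (hk : 1 ≤ k) : 0 < et ε k := by
  have : (1 : ℝ) ≤ k := by exact_mod_cast hk
  unfold et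
  positivity

theorem et_le {ε : ℝ} (hε : 0 < ε) (hε1 : ε ≤ 1) {k : ℕ} (hk : 1 ≤ k) : et ε k ≤ 1 / 16 := by
  have hk1 : (1 : ℝ) ≤ k := by exact_mod_cast hk
  unfold et
  rw [div_le_div_iff₀ (by positivity) (by norm_num)]
  nlinarith

/-- The range of the types. -/
def Ok (ε : ℝ) (n k : ℕ) : Prop := 1 ≤ k ∧ (k : ℝ) ^ 2 * Real.log (Real.log n) ≤ ε / 192 * Real.log n

theorem growth2 : ∀ᶠ n : ℕ in atTop, ∀ k : ℕ, ∀ x : ℝ, (k : ℝ) * Real.log (Real.log n) ≤ x * Real.log n →
    (4 * Real.log n) ^ k ≤ (n : ℝ) ^ (2 * x) := by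
  filter_upwards [loglog_nat_top.eventually_ge_atTop (Real.log 4), log_nat_top.eventually_ge_atTop 1,
    eventually_gt_atTop 0] with n h1 h2 h3 k x hk
  have hn0 : (0 : ℝ) < n := by exact_mod_cast h3
  have hCl : 0 < 4 * Real.log n := by positivity
  rw [← Real.exp_log hCl, ← Real.exp_nat_mul, Real.rpow_def_of_pos hn0, Real.log_mul (by positivity) (by positivity)]
  refine Real.exp_le_exp.2 ?_
  have h4 : (k : ℝ) * Real.log 4 ≤ k * Real.log (Real.log n) := mul_le_mul_of_nonneg_left h1 (Nat.cast_nonneg _)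
  nlinarith

/-- Consequences. -/
theorem ok_le {ε : ℝ} (hε : 0 < ε) (hε1 : ε ≤ 1) : ∀ᶠ n : ℕ in atTop, ∀ k : ℕ, Ok ε n k →
    (k : ℝ) ≤ Real.log n ∧ (4 * Real.log n) ^ k ≤ (n : ℝ) ^ (1 / 16 : ℝ) ∧
    (2 * Real.log n) ^ (2 * k + 1) ≤ (n : ℝ) ^ (1 / 16 : ℝ) := by
  filter_upwards [loglog_nat_top.eventually_ge_atTop 1, log_nat_top.eventually_ge_atTop 1,
    eventually_gt_atTop 0, growth2] with n h1 h2 h3 h4 k ⟨hk1, hk⟩
  have hn1 : (1 : ℝ) ≤ n := by exact_mod_cast h3
  have hk1' : (1 : ℝ) ≤ k := by exact_mod_cast hk1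
  have hkk : (k : ℝ) ≤ (k : ℝ) ^ 2 := by nlinarith
  have h5 : (k : ℝ) * Real.log (Real.log n) ≤ ε / 192 * Real.log n := by
    refine le_trans ?_ hk
    exact mul_le_mul_of_nonneg_right hkk (by linarith)
  have h6 : (k : ℝ) * Real.log (Real.log n) ≤ 1 / 192 * Real.log n := by
    refine h5.trans (mul_le_mul_of_nonneg_right (by linarith) (by linarith))
  refine ⟨?_, ?_, ?_⟩
  · nlinarith
  · refine (h4 k (1 / 192) h6).trans (Real.rpow_le_rpow_of_exponent_le hn1 (by norm_num))
  · have h7 : ((3 * k : ℕ) : ℝ) * Real.log (Real.log n) ≤ 3 / 192 * Real.log n := by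
      push_cast
      linarith
    have h8 := h4 (3 * k) (3 / 192) h7
    calc (2 * Real.log (n : ℝ)) ^ (2 * k + 1) ≤ (4 * Real.log n) ^ (2 * k + 1) :=
          pow_le_pow_left₀ (by positivity) (by linarith) _
      _ ≤ (4 * Real.log n) ^ (3 * k) := pow_le_pow_right₀ (by linarith) (by omega)
      _ ≤ _ := h8
      _ ≤ _ := Real.rpow_le_rpow_of_exponent_le hn1 (by norm_num)

/-- The logarithm of the lower bound for the positions. -/
theorem zn_log {ε : ℝ} (hε : 0 < ε) (hε1 : ε ≤ 1) : ∀ᶠ n : ℕ in atTop, ∀ k : ℕ, Ok ε n k →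
    3 ≤ zn n k ∧ Real.log n ≤ (1 + et ε k) * Real.log (zn n k) := by
  filter_upwards [loglog_nat_top.eventually_ge_atTop 1, log_nat_top.eventually_ge_atTop 4,
    eventually_gt_atTop 0] with n h1 h2 h3 k ⟨hk1, hk⟩
  have hn0 : (0 : ℝ) < n := by exact_mod_cast h3
  have hk1' : (1 : ℝ) ≤ k := by exact_mod_cast hk1
  have hk0 : (0 : ℝ) < k := by linarith
  have hr0 : 0 < (n : ℝ) / (2 * Real.log n) ^ (2 * k + 1) := by positivity
  have hrz : (n : ℝ) / (2 * Real.log n) ^ (2 * k + 1) ≤ zn n k := Nat.le_ceil _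
  have hlog : Real.log n - (2 * k + 1) * Real.log (2 * Real.log n) ≤ Real.log (zn n k) := by
    have h4 := Real.log_le_log hr0 hrz
    rw [Real.log_div (by positivity) (by positivity), Real.log_pow] at h4
    push_cast at h4
    exact h4
  have h5 : Real.log (2 * Real.log (n : ℝ)) ≤ 2 * Real.log (Real.log n) := by
    rw [Real.log_mul (by norm_num) (by positivity)]
    have := Real.log_two_lt_d9
    linarith
  have h6 : (2 * (k : ℝ) + 1) * Real.log (2 * Real.log n) ≤ 6 * k * Real.log (Real.log n) := by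
    calc (2 * (k : ℝ) + 1) * Real.log (2 * Real.log n) ≤ (3 * k) * (2 * Real.log (Real.log n)) :=
          mul_le_mul (by linarith) h5 (Real.log_nonneg (by linarith)) (by positivity)
      _ = _ := by ring
  have h7 : 6 * (k : ℝ) * Real.log (Real.log n) ≤ et ε k / 2 * Real.log n := by
    unfold et
    rw [div_div, div_mul_eq_mul_div, le_div_iff₀ (by positivity)]
    nlinarith
  have hη := et_pos hε hk1
  have hη1 := et_le hε hε1 hk1
  obtain ⟨η, hηe⟩ : ∃ η : ℝ, η = et ε k := ⟨_, rfl⟩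
  rw [← hηe] at h7 hη hη1 ⊢
  have h8 : (1 - η / 2) * Real.log n ≤ Real.log (zn n k) := by linarith
  have h9 : Real.log n ≤ (1 + η) * Real.log (zn n k) := by
    have h10 : Real.log n ≤ (1 + η) * ((1 - η / 2) * Real.log n) := by
      have : 1 ≤ (1 + η) * (1 - η / 2) := by nlinarith
      calc Real.log (n : ℝ) = 1 * Real.log n := (one_mul _).symm
        _ ≤ ((1 + η) * (1 - η / 2)) * Real.log n := mul_le_mul_of_nonneg_right this (by linarith)
        _ = _ := by ring
    exact h10.trans (mul_le_mul_of_nonneg_left h8 (by linarith))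
  refine ⟨?_, h9⟩
  by_contra hcon
  have h10 : (zn n k : ℝ) ≤ 2 := by exact_mod_cast (by omega : zn n k ≤ 2)
  have h11 : Real.log (zn n k) ≤ Real.log 2 := Real.log_le_log (lt_of_lt_of_le hr0 hrz) h10
  have := Real.log_two_lt_d9
  have h12 : (1 - η / 2) * Real.log n ≥ (1 / 2) * 4 := mul_le_mul (by linarith) h2 (by norm_num) (by linarith)
  linarith

/-- The probabilities. -/
theorem prob_bounds {ε : ℝ} (hε : 0 < ε) (hε1 : ε ≤ 1) : ∀ᶠ n : ℕ in atTop, ∀ k : ℕ, Ok ε n k → ∀ a : ℕ, zn n k ≤ a →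
    a < n + 2 → tn ε n k ≤ 1 / Real.log a ∧ 1 / Real.log a ≤ sn ε n k := by
  have hlim : Tendsto (fun n : ℕ => (n : ℝ) / Real.log n) atTop atTop := by
    have := x_div_log_pow 1
    refine this.congr (fun n => ?_)
    rw [pow_one]
  filter_upwards [ok_le hε hε1, zn_log hε hε1, log_nat_top.eventually_ge_atTop 4, eventually_gt_atTop 0,
    hlim.eventually_ge_atTop (32 / ε)] with n h1 h2 h3 h4 h5 k hk a ha haN
  obtain ⟨k1, k2, k3⟩ := h1 k hk
  obtain ⟨z1, z2⟩ := h2 k hk
  have hk1 := hk.1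
  have hk1' : (1 : ℝ) ≤ k := by exact_mod_cast hk1
  have hn0 : (0 : ℝ) < n := by exact_mod_cast h4
  have hη := et_pos hε hk1
  have hη1 := et_le hε hε1 hk1
  have ha0 : (3 : ℝ) ≤ a := by exact_mod_cast (z1.trans ha)
  have hla : 0 < Real.log (a : ℝ) := Real.log_pos (by linarith)
  unfold tn sn
  constructor
  · rw [div_le_div_iff₀ (by linarith) hla, one_mul]
    have h6 : Real.log (a : ℝ) ≤ Real.log n + 2 / n := by
      have h7 : (a : ℝ) ≤ n * (1 + 2 / n) := by
        have : (a : ℝ) ≤ n + 2 := by exact_mod_cast haN.le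
        field_simp
        linarith
      have h8 := Real.log_le_log (by linarith) h7
      rw [Real.log_mul (by positivity) (by positivity)] at h8
      have h9 := Real.log_le_sub_one_of_pos (show (0 : ℝ) < 1 + 2 / n by positivity)
      linarith
    have h7 : (2 : ℝ) / n ≤ et ε k * Real.log n := by
      unfold et
      have h8 : 32 / ε * Real.log n ≤ n := by
        rw [le_div_iff₀ (by linarith)] at h5
        exact h5
      have h9 : 32 * Real.log n ≤ ε * n := by
        have := mul_le_mul_of_nonneg_left h8 hε.le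
        have e : ε * (32 / ε * Real.log n) = 32 * Real.log n := by field_simp
        rwa [e] at this
      rw [div_mul_eq_mul_div, div_le_div_iff₀ hn0 (by positivity)]
      have h10 : 2 * (16 * (k : ℝ)) ≤ 32 * Real.log n := by linarith
      have h11 : ε * (n : ℝ) ≤ ε * Real.log n * n := by
        have : 0 < ε * (n : ℝ) := by positivity
        nlinarith
      linarith
    have h8 : (1 - et ε k) * Real.log a ≤ (1 - et ε k) * (Real.log n + 2 / n) := mul_le_mul_of_nonneg_left h6 (by linarith)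
    have h9 : (1 - et ε k) * (2 / n) ≤ 2 / n := by
      have : 0 < (2 : ℝ) / n := by positivity
      nlinarith
    nlinarith
  · rw [div_le_div_iff₀ hla (by linarith), one_mul]
    refine z2.trans (mul_le_mul_of_nonneg_left (Real.log_le_log ?_ (by exact_mod_cast ha)) (by linarith))
    exact_mod_cast (by omega : 0 < zn n k)

end Pool.Agent.Q197.IU
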