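import Pool.Agent.Q197.IU.Block

/-!
# The sum over the blocks
-/

set_option autoImplicit false
set_option linter.unusedSectionVars false

namespace Pool.Agent.Q197.IU

open Finset Filter MeasureTheory ProbabilityTheory Pool.Agent.Q197.FM Pool.Agent.Q197.CI Pool.Agent.Q197.BH
  Pool.Agent.Q197.IT Pool.Agent.Q120.ET Pool.Agent.Q120.MF
open scoped Topology

/-- The block `i` is separated from the higher blocks of the other chain. -/
def Sp (S : Set ℕ) (b n H i : ℕ) : Prop := ∀ l, 1 ≤ l → l ≤ b →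
  i * H + H ≤ (fs S)^[l] (n + 1 - i * H - H) ∨ (fs S)^[l] (n + 1 - i * H - H + H) ≤ i * H

theorem bad_card {S : Set ℕ} {b n H i1 : ℕ} (hH : 1 ≤ H) (hi1 : 2 * (i1 * H) ≤ n + 1) (B : Finset ℕ)
    (hB : ∀ i ∈ B, i < i1 ∧ ¬ Sp S b n H i) : B.card ≤ b := by
  classical
  have h1 : ∀ i ∈ B, ∃ l, 1 ≤ l ∧ l ≤ b ∧ (fs S)^[l] (n + 1 - i * H - H) < i * H + H ∧
      i * H < (fs S)^[l] (n + 1 - i * H - H + H) := by
    intro i hi
    have h2 := (hB i hi).2
    unfold Sp at h2
    push Not at h2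
    exact h2
  choose! f hf using h1
  have h2 : (B.image f) ⊆ Icc 1 b := by
    intro l hl
    rw [mem_image] at hl
    obtain ⟨i, hi, rfl⟩ := hl
    rw [mem_Icc]
    exact ⟨(hf i hi).1, (hf i hi).2.1⟩
  have key : ∀ i ∈ B, ∀ j ∈ B, i < j → f i ≠ f j := by
    intro i hi j hj hij he
    obtain ⟨_, _, h3, _⟩ := hf i hi
    obtain ⟨_, _, _, h4⟩ := hf j hj
    rw [← he] at h4
    have hi1' := (hB j hj).1
    have h5 : i * H + H ≤ j * H := by
      have : (i + 1) * H ≤ j * H := Nat.mul_le_mul_right H hij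
      linarith
    have h6 : j * H + H ≤ i1 * H := by
      have : (j + 1) * H ≤ i1 * H := Nat.mul_le_mul_right H hi1'
      linarith
    have h7 : n + 1 - j * H - H + H ≤ n + 1 - i * H - H := by omega
    have h8 := it_mono S (f i) h7
    omega
  have h3 : B.card = (B.image f).card := by
    rw [card_image_of_injOn]
    intro i hi j hj he
    by_contra hne
    rcases lt_or_gt_of_ne hne with h4 | h4
    · exact key i hi j hj h4 he
    · exact key j hj i hi h4 he.symm
  rw [h3]
  refine (card_le_card h2).trans ?_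
  rw [Nat.card_Icc]
  omega

open Classical in
/-- The solutions with the first summand less than `x`. -/
noncomputable def Hf (S : Set ℕ) (a b n x : ℕ) : Finset ℕ :=
  (range x).filter (fun u => IsPr a S u ∧ IsPr b S (n - u))

theorem hf_sum (S : Set ℕ) (a b n H i1 : ℕ) :
    (Hf S a b n (i1 * H)).card = ∑ i ∈ range i1, (Fc S a b n (i * H) H).card := by
  classical
  induction i1 with
  | zero => simp [Hf]
  | succ i ih =>
    rw [sum_range_succ, ← ih]
    unfold Hf Fc
    rw [card_filter, card_filter, card_filter, Nat.succ_mul, sum_range_add]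

/-- **The number of the solutions with a small first summand.** -/
theorem half_count {S : Set ℕ} {N z n a b H i0 i1 : ℕ} (hz : 3 ≤ z) {τ σ ε : ℝ} (hτ : 0 ≤ τ) (hσ : 0 ≤ σ) (hε : 0 ≤ ε)
    (hε1 : ε ≤ 1) (hH : 1 ≤ H) (hi1 : 2 * (i1 * H) ≤ n + 1) (hN : n + 1 ≤ N)
    (hfs : ∀ i, i0 ≤ i → i < i1 → fs S (i * H + H) ≤ i * H ∧ fs S (n + 1 - i * H) ≤ n + 1 - i * H - H)
    (hzc : ∀ i, i0 ≤ i → i < i1 → ∀ j < a + b + 2, z ≤ (fs S)^[j] (i * H))
    (hnot : ∀ i < i1, ¬ D1 N z τ σ ε a b (i * H) (n + 1 - i * H - H) H S) :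
    ((1 - ε) * τ) ^ (a + b + 2) * (((i1 : ℝ) - i0 - b) * H) ≤ (Hf S a b n (i1 * H)).card ∧
      ((Hf S a b n (i1 * H)).card : ℝ) ≤ ((1 + ε) * σ) ^ (a + b + 2) * (i1 * H) + ((i0 : ℝ) + b) * H := by
  classical
  obtain ⟨q, hq⟩ : ∃ q : ℝ, q = ((1 - ε) * τ) ^ (a + b + 2) := ⟨_, rfl⟩
  obtain ⟨r, hr⟩ : ∃ r : ℝ, r = ((1 + ε) * σ) ^ (a + b + 2) := ⟨_, rfl⟩
  have hq0 : 0 ≤ q := by
    rw [hq]
    exact pow_nonneg (mul_nonneg (by linarith) hτ) _
  have hr0 : 0 ≤ r := by
    rw [hr]
    exact pow_nonneg (mul_nonneg (by linarith) hσ) _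
  obtain ⟨B, hB⟩ : ∃ B : Finset ℕ, B = (range i1).filter (fun i => ¬ Sp S b n H i) := ⟨_, rfl⟩
  have hBc : B.card ≤ b := by
    refine bad_card (S := S) hH hi1 B (fun i hi => ?_)
    rw [hB, mem_filter, mem_range] at hi
    exact hi
  obtain ⟨W, hW⟩ : ∃ W : Finset ℕ, W = (range i1).filter (fun i => i < i0 ∨ ¬ Sp S b n H i) := ⟨_, rfl⟩
  have hWc : W.card ≤ i0 + b := by
    have h1 : W ⊆ range i0 ∪ B := by
      intro i hi
      rw [hW, mem_filter, mem_range] at hi
      rw [mem_union, mem_range, hB, mem_filter, mem_range]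
      rcases hi.2 with h2 | h2
      · exact Or.inl h2
      · exact Or.inr ⟨hi.1, h2⟩
    refine (card_le_card h1).trans ((card_union_le _ _).trans ?_)
    rw [card_range]
    omega
  have hHr : (0 : ℝ) ≤ H := Nat.cast_nonneg _
  have hblock : ∀ i < i1, i ∉ W → q * H ≤ ((Fc S a b n (i * H) H).card : ℝ) ∧ ((Fc S a b n (i * H) H).card : ℝ) ≤ r * H := by
    intro i hi hiW
    have h1 : i0 ≤ i ∧ Sp S b n H i := by
      by_contra hcon
      apply hiW
      rw [hW, mem_filter, mem_range]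
      refine ⟨hi, ?_⟩
      by_contra hcon2
      push Not at hcon2
      exact hcon hcon2
    have h6 : i * H + H ≤ i1 * H := by
      have : (i + 1) * H ≤ i1 * H := Nat.mul_le_mul_right H hi
      linarith
    obtain ⟨g1, g2⟩ := hfs i h1.1 hi
    have e1 : n + 1 - i * H - H + H = n + 1 - i * H := by omega
    rw [hq, hr]
    refine block_count (N := N) (z := z) (e := n + 1 - i * H - H) hz hτ hσ hε hε1 (by omega) (by omega) hH (by omega) g1
      (by rw [e1]; exact g2) (fun l h2 h3 => h1.2 l h2 h3) (fun j hj => hzc i h1.1 hi j (by omega))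
      (fun j hj => (hzc i h1.1 hi j (by omega)).trans (it_mono S j (by omega))) (hnot i hi)
  have hF : ∀ i, ((Fc S a b n (i * H) H).card : ℝ) ≤ H := by
    intro i
    have h1 : (Fc S a b n (i * H) H).card ≤ H := by
      unfold Fc
      exact (card_filter_le _ _).trans (by rw [card_range])
    exact_mod_cast h1
  have hsum : ((Hf S a b n (i1 * H)).card : ℝ) = ∑ i ∈ range i1, ((Fc S a b n (i * H) H).card : ℝ) := by
    rw [hf_sum]
    push_cast
    rfl
  have hWr : (W.card : ℝ) ≤ i0 + b := by exact_mod_cast hWc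
  have hW1 : ∑ i ∈ range i1, (if i ∈ W then (1 : ℝ) else 0) = W.card := by
    rw [← sum_filter, filter_mem_eq_inter]
    have h2 : range i1 ∩ W = W := by
      refine inter_eq_right.2 ?_
      rw [hW]
      exact filter_subset _ _
    rw [h2, sum_const, nsmul_eq_mul, mul_one]
  have hWs : ∀ y : ℝ, ∑ i ∈ range i1, (if i ∈ W then (1 : ℝ) else 0) * y = W.card * y := fun y => by rw [← sum_mul, hW1]
  rw [← hq, ← hr, hsum]
  constructor
  · have h1 : ∑ i ∈ range i1, (q * H - (if i ∈ W then (1 : ℝ) else 0) * (q * H)) ≤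
        ∑ i ∈ range i1, ((Fc S a b n (i * H) H).card : ℝ) := by
      refine sum_le_sum (fun i hi => ?_)
      by_cases h2 : i ∈ W
      · rw [if_pos h2]
        have : (0 : ℝ) ≤ ((Fc S a b n (i * H) H).card : ℝ) := Nat.cast_nonneg _
        linarith
      · rw [if_neg h2]
        have := (hblock i (mem_range.1 hi) h2).1
        linarith
    refine le_trans ?_ h1
    rw [sum_sub_distrib, hWs, sum_const, card_range, nsmul_eq_mul]
    have h3 : (W.card : ℝ) * (q * H) ≤ ((i0 : ℝ) + b) * (q * H) := mul_le_mul_of_nonneg_right hWr (by positivity)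
    have h4 : q * (((i1 : ℝ) - i0 - b) * H) = i1 * (q * H) - ((i0 : ℝ) + b) * (q * H) := by ring
    rw [h4]
    linarith
  · have h1 : ∑ i ∈ range i1, ((Fc S a b n (i * H) H).card : ℝ) ≤
        ∑ i ∈ range i1, (r * H + (if i ∈ W then (1 : ℝ) else 0) * H) := by
      refine sum_le_sum (fun i hi => ?_)
      by_cases h2 : i ∈ W
      · rw [if_pos h2]
        have := hF i
        have h3 : 0 ≤ r * H := by positivity
        linarith
      · rw [if_neg h2]
        have := (hblock i (mem_range.1 hi) h2).2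
        linarith
    refine h1.trans ?_
    rw [sum_add_distrib, hWs, sum_const, card_range, nsmul_eq_mul]
    have h3 : (W.card : ℝ) * H ≤ ((i0 : ℝ) + b) * H := mul_le_mul_of_nonneg_right hWr hHr
    have h4 : (i1 : ℝ) * (r * H) = r * (i1 * H) := by ring
    rw [h4]
    linarith

end Pool.Agent.Q197.IU
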