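import Pool.Agent.Q197.IU.Law

/-!
# The number of all representations
-/

set_option autoImplicit false
set_option linter.unusedSectionVars false

namespace Pool.Agent.Q197.IU

open Finset Filter MeasureTheory ProbabilityTheory Pool.Agent.Q197.FM Pool.Agent.Q197.CI Pool.Agent.Q197.BH
  Pool.Agent.Q197.IT Pool.Agent.Q120.ET Pool.Agent.Q120.MF
open scoped Topology

open Classical in
/-- All solutions. -/
noncomputable def Rf (S : Set ℕ) (a b n : ℕ) : Finset ℕ :=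
  (range (n + 1)).filter (fun u => IsPr a S u ∧ IsPr b S (n - u) ∧ u ≠ n - u)

theorem rf_bounds (S : Set ℕ) {a b n X : ℕ} (hX : 2 * X ≤ n + 1) :
    (Hf S a b n X).card + (Hf S b a n X).card ≤ (Rf S a b n).card ∧
      (Rf S a b n).card ≤ (Hf S a b n X).card + (Hf S b a n X).card + (n + 1 - 2 * X) := by
  classical
  obtain ⟨J, hJ⟩ : ∃ J : Finset ℕ, J = (Hf S b a n X).image (fun y => n - y) := ⟨_, rfl⟩
  have hJc : J.card = (Hf S b a n X).card := by
    rw [hJ, card_image_of_injOn]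
    intro y hy y' hy' he
    simp only [Hf, coe_filter, mem_range, Set.mem_ofPred_eq] at hy hy' he
    have h1 := hy.1
    have h2 := hy'.1
    omega
  have hdis : Disjoint (Hf S a b n X) J := by
    rw [disjoint_left]
    intro u hu hu2
    rw [hJ, mem_image] at hu2
    obtain ⟨y, hy, rfl⟩ := hu2
    rw [Hf, mem_filter, mem_range] at hu hy
    omega
  constructor
  · rw [← hJc, ← card_union_of_disjoint hdis]
    refine card_le_card ?_
    intro u hu
    rw [mem_union] at hu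
    rw [Rf, mem_filter, mem_range]
    rcases hu with hu | hu
    · rw [Hf, mem_filter, mem_range] at hu
      refine ⟨by omega, hu.2.1, hu.2.2, by omega⟩
    · rw [hJ, mem_image] at hu
      obtain ⟨y, hy, rfl⟩ := hu
      rw [Hf, mem_filter, mem_range] at hy
      have e : n - (n - y) = y := by omega
      rw [e]
      exact ⟨by omega, hy.2.2, hy.2.1, by omega⟩
  · have hsub : Rf S a b n ⊆ (Hf S a b n X ∪ J) ∪ Ico X (n + 1 - X) := by
      intro u hu
      rw [Rf, mem_filter, mem_range] at hu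
      obtain ⟨h1, h2, h3, h4⟩ := hu
      rw [mem_union, mem_union, mem_Ico]
      by_cases h5 : u < X
      · refine Or.inl (Or.inl ?_)
        rw [Hf, mem_filter, mem_range]
        exact ⟨h5, h2, h3⟩
      · by_cases h6 : u < n + 1 - X
        · exact Or.inr ⟨by omega, h6⟩
        · refine Or.inl (Or.inr ?_)
          rw [hJ, mem_image]
          refine ⟨n - u, ?_, by omega⟩
          rw [Hf, mem_filter, mem_range]
          have e : n - (n - u) = u := by omega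
          rw [e]
          exact ⟨by omega, h3, h2⟩
    refine (card_le_card hsub).trans ((card_union_le _ _).trans ?_)
    rw [card_union_of_disjoint hdis, hJc, Nat.card_Ico]
    omega

theorem total_law {S : Set ℕ} (hct : Tendsto (fun x : ℕ => (ct S x : ℝ) * Real.log x / x) atTop (𝓝 1)) {ε : ℝ} (hε : 0 < ε)
    (hε1 : ε ≤ 1) (hD : ∀ᶠ n : ℕ in atTop, ∀ a b : ℕ, Ok ε n (a + b + 2) → ∀ i ≤ n, ¬ Dn ε n a b i S) :
    ∀ᶠ n : ℕ in atTop, ∀ a b : ℕ, Ok ε n (a + b + 2) →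
      |((Rf S a b n).card : ℝ) * Real.log n ^ (a + b + 2) / n - 1| ≤ 2 * ε := by
  classical
  have hbig : Tendsto (fun n : ℕ => (n : ℝ) ^ (1 / 16 : ℝ)) atTop atTop :=
    (tendsto_rpow_atTop (by norm_num)).comp tendsto_natCast_atTop_atTop
  filter_upwards [half_law hct hε hε1 hD, ok_le hε hε1, Hn_bounds, log_nat_top.eventually_ge_atTop 4,
    eventually_ge_atTop 64, hbig.eventually_ge_atTop (64 / ε)] with n h1 h2 h4 h5 h6 h7 a b hab
  have hab' : Ok ε n (b + a + 2) := by rwa [Nat.add_comm b a]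
  obtain ⟨l1, u1⟩ := h1 a b hab
  obtain ⟨l2, u2⟩ := h1 b a hab'
  rw [Nat.add_comm b a] at l2 u2
  obtain ⟨k, hk⟩ : ∃ k : ℕ, k = a + b + 2 := ⟨_, rfl⟩
  rw [← hk] at l1 u1 l2 u2 hab ⊢
  obtain ⟨k1, k2, k3⟩ := h2 k hab
  obtain ⟨g1, g2, g3⟩ := h4
  have hn0 : (0 : ℝ) < n := by exact_mod_cast (by omega : 0 < n)
  obtain ⟨L, hL⟩ : ∃ L : ℝ, L = Real.log n := ⟨_, rfl⟩
  rw [← hL] at l1 u1 l2 u2 h5 k1 k2 k3 ⊢
  have hL0 : 0 < L := by linarith
  obtain ⟨P, hP⟩ : ∃ P : ℝ, P = (n : ℝ) ^ (1 / 16 : ℝ) := ⟨_, rfl⟩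
  have hP0 : 0 < P := by rw [hP]; exact Real.rpow_pos_of_pos hn0 _
  have e4 : (n : ℝ) ^ (1 / 4 : ℝ) = P ^ 4 := by
    rw [hP, ← Real.rpow_natCast, ← Real.rpow_mul hn0.le]
    norm_num
  have e16 : (n : ℝ) = P ^ 16 := by
    rw [hP, ← Real.rpow_natCast, ← Real.rpow_mul hn0.le]
    norm_num
  rw [← hP] at h7 k2 k3
  rw [e4] at g1 g2
  obtain ⟨H, hH⟩ : ∃ H : ℕ, H = Hn n := ⟨_, rfl⟩
  rw [← hH] at g1 g2 g3 l1 u1 l2 u2
  obtain ⟨i1, hi1⟩ : ∃ i1 : ℕ, i1 = i1n n := ⟨_, rfl⟩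
  rw [← hi1] at l1 u1 l2 u2
  have hH0 : (0 : ℝ) < H := by exact_mod_cast g3
  have q1 : 2 * (i1 * H) ≤ n + 1 := by
    rw [hi1]
    unfold i1n
    rw [← hH]
    have := Nat.div_mul_le_self (n + 1) (2 * H)
    calc 2 * ((n + 1) / (2 * H) * H) = (n + 1) / (2 * H) * (2 * H) := by ring
      _ ≤ _ := this
  have q2 : n + 1 < 2 * (i1 * H) + 2 * H := by
    have h9 : n + 1 < ((n + 1) / (2 * H) + 1) * (2 * H) := Nat.lt_mul_of_div_lt (by omega) (by omega)
    rw [hi1]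
    unfold i1n
    rw [← hH]
    calc n + 1 < ((n + 1) / (2 * H) + 1) * (2 * H) := h9
      _ = _ := by ring
  obtain ⟨r1, r2⟩ := rf_bounds S (a := a) (b := b) q1
  have r1' : ((Hf S a b n (i1 * H)).card : ℝ) + (Hf S b a n (i1 * H)).card ≤ (Rf S a b n).card := by exact_mod_cast r1
  have r2' : ((Rf S a b n).card : ℝ) ≤ (Hf S a b n (i1 * H)).card + (Hf S b a n (i1 * H)).card + 2 * H := by
    have h9 : n + 1 - 2 * (i1 * H) ≤ 2 * H := by omega
    have h10 : (Rf S a b n).card ≤ (Hf S a b n (i1 * H)).card + (Hf S b a n (i1 * H)).card + 2 * H := by omega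
    exact_mod_cast h10
  have hLk0 : 0 < L ^ k := by positivity
  have hLkP : L ^ k ≤ P := by
    refine le_trans ?_ k2
    exact pow_le_pow_left₀ hL0.le (by linarith) _
  have h64 : 64 ≤ 64 / ε := by
    rw [le_div_iff₀ hε]
    linarith
  have hεP : 64 ≤ ε * P := by
    rw [div_le_iff₀ hε] at h7
    linarith
  have c2 : ((0 : ℝ) + 2) * H * L ^ k ≤ ε / 64 * n := by
    rw [e16]
    exact kH_bound (by linarith) hH0.le g2 (by linarith) hLk0.le hLkP hεP
  rw [zero_add] at c2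
  have t1 := mul_le_mul_of_nonneg_right r1' hLk0.le
  have t2 := mul_le_mul_of_nonneg_right r2' hLk0.le
  rw [add_mul] at t1
  rw [add_mul, add_mul] at t2
  have hεn : 0 < ε * n := mul_pos hε hn0
  rw [abs_le]
  constructor
  · rw [neg_le_sub_iff_le_add, ← sub_le_iff_le_add, le_div_iff₀ hn0]
    linarith
  · rw [sub_le_iff_le_add, div_le_iff₀ hn0]
    linarith

/-- The general form. -/
def Uni (S : Set ℕ) : Prop := ∀ ε : ℝ, 0 < ε → ∃ δ : ℝ, 0 < δ ∧ ∀ᶠ n : ℕ in atTop, ∀ a b : ℕ,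
  ((a : ℝ) + b) ^ 2 * Real.log (Real.log n) ≤ δ * Real.log n →
    |((Rf S a b n).card : ℝ) * Real.log n ^ (a + b + 2) / n - 1| ≤ ε

variable {Ω : Type*} [MeasurableSpace Ω] {μ : Measure Ω} [IsProbabilityMeasure μ] {A : Ω → Set ℕ}

theorem rf_r3 (A : Ω → Set ℕ) (ω : Ω) (a b n : ℕ) : Rf (r3 A ω) a b n = Rf (A ω) a b n := by
  classical
  unfold Rf
  refine filter_congr (fun u _ => ?_)
  rw [isPr_r3, isPr_r3]

theorem ae_uni (hA : IsCramer μ A) : ∀ᵐ ω ∂μ, Uni (A ω) := by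
  have h1 : ∀ᵐ ω ∂μ, ∀ i : ℕ, ∀ᶠ n : ℕ in atTop, ∀ a b : ℕ, Ok (1 / ((i : ℝ) + 1)) n (a + b + 2) →
      ∀ j ≤ n, ¬ Dn (1 / ((i : ℝ) + 1)) n a b j (r3 A ω) := by
    rw [ae_all_iff]
    intro i
    refine ae_not hA (by positivity) ?_
    rw [div_le_one (by positivity)]
    have : (0 : ℝ) ≤ i := Nat.cast_nonneg _
    linarith
  filter_upwards [h1, ct_law hA] with ω h2 h3 ε hε
  obtain ⟨i, hi⟩ := exists_nat_one_div_lt (show 0 < ε / 2 by positivity)
  obtain ⟨e, he⟩ : ∃ e : ℝ, e = 1 / ((i : ℝ) + 1) := ⟨_, rfl⟩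
  have he0 : 0 < e := by rw [he]; positivity
  have he1 : e ≤ 1 := by
    rw [he, div_le_one (by positivity)]
    have : (0 : ℝ) ≤ i := Nat.cast_nonneg _
    linarith
  have h4 := h2 i
  rw [← he] at h4 hi
  have h5 := total_law (S := r3 A ω) (h3.congr (fun x => by rw [ct_r3])) he0 he1 h4
  have hlim : Tendsto (fun n : ℕ => Real.log (Real.log (n : ℝ)) / Real.log n) atTop (𝓝 0) := by
    have := ll_pow_div 1
    refine this.congr (fun n => ?_)
    rw [pow_one]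
  refine ⟨e / 768, by positivity, ?_⟩
  filter_upwards [h5, hlim.eventually_lt_const (show 0 < e / (8 * 384) by positivity), log_nat_top.eventually_ge_atTop 1,
    loglog_nat_top.eventually_ge_atTop 1] with n h6 h7 h8 h9 a b hab
  rw [← rf_r3]
  refine (h6 a b ⟨by omega, ?_⟩).trans (by linarith)
  rw [div_lt_iff₀ (by linarith)] at h7
  push_cast
  have hab0 : (0 : ℝ) ≤ (a : ℝ) + b := by positivity
  have h10 : ((a : ℝ) + b + 2) ^ 2 ≤ 2 * ((a : ℝ) + b) ^ 2 + 8 := by nlinarith [sq_nonneg ((a : ℝ) + b - 2)]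
  have h11 : ((a : ℝ) + b + 2) ^ 2 * Real.log (Real.log n) ≤ (2 * ((a : ℝ) + b) ^ 2 + 8) * Real.log (Real.log n) :=
    mul_le_mul_of_nonneg_right h10 (by linarith)
  refine h11.trans ?_
  have h12 : (2 * ((a : ℝ) + b) ^ 2 + 8) * Real.log (Real.log n) =
      2 * (((a : ℝ) + b) ^ 2 * Real.log (Real.log n)) + 8 * Real.log (Real.log n) := by ring
  rw [h12]
  linarith

end Pool.Agent.Q197.IU
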